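import Mathlib

/-!
MP_cd28a7_co, witnessing layouts: the extremal bound of Capoyleas and Pach for three pairwise
crossing chords. `E` is a set of pairs `(a, b)`, `a < b < n`, of points on a line (circle).
-/

set_option autoImplicit false

namespace Pool.Agent.Lib.MP_cd28a7_co.W

/-- No three pairwise crossing pairs. -/
def TF (E : Finset (ℕ × ℕ)) : Prop :=
  ∀ a b c d e f : ℕ, a < b → b < c → c < d → d < e → e < f →
    (a, d) ∈ E → (b, e) ∈ E → (c, f) ∈ E → False

/-- contraction of `i` and `i + 1` -/
def ctr (i j : ℕ) : ℕ := if j ≤ i then j else j - 1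

theorem ctr_lt {i x y : ℕ} (h : ctr i x < ctr i y) : x < y := by
  unfold ctr at h
  split_ifs at h <;> omega

theorem ext_bound : ∀ (n : ℕ), 5 ≤ n → ∀ E : Finset (ℕ × ℕ),
    (∀ p ∈ E, p.1 < p.2 ∧ p.2 < n) → TF E → E.card + 10 ≤ 4 * n := by
  intro n hn
  induction n, hn using Nat.le_induction with
  | base =>
    intro E hE _
    have hsub : E ⊆ ((Finset.range 5 ×ˢ Finset.range 5).filter fun p => p.1 < p.2) := by
      intro p hp
      have := hE p hp
      simp only [Finset.mem_filter, Finset.mem_product, Finset.mem_range]
      omega
    have h2 : ((Finset.range 5 ×ˢ Finset.range 5).filter fun p : ℕ × ℕ => p.1 < p.2).card = 10 := by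
      decide
    have := Finset.card_le_card hsub
    omega
  | succ n hn ih =>
    intro E hE hT
    by_cases hlong : ∃ p ∈ E, p.1 + 3 ≤ p.2
    · -- a shortest long pair
      obtain ⟨p, hp, hmin⟩ := Finset.exists_min_image (E.filter fun p => p.1 + 3 ≤ p.2)
        (fun p => p.2 - p.1) (by
          obtain ⟨p, hp, h⟩ := hlong
          exact ⟨p, by simp [hp, h]⟩)
      simp only [Finset.mem_filter] at hp hmin
      obtain ⟨hpE, hp3⟩ := hp
      obtain ⟨a, b⟩ := p
      simp only at hp3 hmin
      have hab := hE _ hpE
      simp only at hab
      have hshort : ∀ x y : ℕ, (x, y) ∈ E → x + 3 ≤ y → b - a ≤ y - x := by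
        intro x y hxy h3
        exact hmin (x, y) ⟨hxy, h3⟩
      set i := a + 1 with hi
      -- the image
      set E1 := E.erase (i, i + 1) with hE1
      set E2 := E1.image fun p => (ctr i p.1, ctr i p.2) with hE2
      have hE2' : ∀ p ∈ E2, p.1 < p.2 ∧ p.2 < n := by
        intro p hp
        simp only [hE2, hE1, Finset.mem_image, Finset.mem_erase] at hp
        obtain ⟨q, ⟨hq1, hq2⟩, rfl⟩ := hp
        have := hE _ hq2
        obtain ⟨x, y⟩ := q
        simp only at this ⊢
        have hne : ¬ (x = i ∧ y = i + 1) := by
          rintro ⟨rfl, rfl⟩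
          exact hq1 rfl
        unfold ctr
        split_ifs <;> omega
      have hT2 : TF E2 := by
        intro p1 p2 p3 p4 p5 p6 h12 h23 h34 h45 h56 m1 m2 m3
        simp only [hE2, hE1, Finset.mem_image, Finset.mem_erase, Prod.mk.injEq, Prod.exists] at m1 m2 m3
        obtain ⟨x1, x4, ⟨-, hx⟩, rfl, rfl⟩ := m1
        obtain ⟨x2, x5, ⟨-, hy⟩, rfl, rfl⟩ := m2
        obtain ⟨x3, x6, ⟨-, hz⟩, rfl, rfl⟩ := m3
        exact hT x1 x2 x3 x4 x5 x6 (ctr_lt h12) (ctr_lt h23) (ctr_lt h34) (ctr_lt h45)
          (ctr_lt h56) hx hy hz
      have h2 := ih E2 hE2' hT2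
      -- collisions
      set C1 := (Finset.range i).filter fun u => (u, i) ∈ E ∧ (u, i + 1) ∈ E with hC1
      set C2 := (Finset.range (n + 1)).filter fun v => (i, v) ∈ E ∧ (i + 1, v) ∈ E with hC2
      have hC : C1.card + C2.card ≤ 3 := by
        have hC1' : ∀ u ∈ C1, u = a ∨ u < a := by
          intro u hu
          simp only [hC1, Finset.mem_filter, Finset.mem_range] at hu
          omega
        have hC2' : ∀ v ∈ C2, v = i + 2 ∨ b < v := by
          intro v hv
          simp only [hC2, Finset.mem_filter, Finset.mem_range] at hv
          obtain ⟨hv1, hv2, hv3⟩ := hv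
          have := hE _ hv3
          simp only at this
          by_contra hcon
          push Not at hcon
          have := hshort i v hv2 (by omega)
          omega
        set O := (C1.filter fun u => u < a) with hO
        set O' := (C2.filter fun v => b < v) with hO'
        have e1 : C1.card ≤ O.card + 1 := by
          have : C1 ⊆ insert a O := by
            intro u hu
            rcases hC1' u hu with h | h
            · simp [h]
            · simp [hO, hu, h]
          exact (Finset.card_le_card this).trans (Finset.card_insert_le _ _)
        have e2 : C2.card ≤ O'.card + 1 := by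
          have : C2 ⊆ insert (i + 2) O' := by
            intro u hu
            rcases hC2' u hu with h | h
            · simp [h]
            · simp [hO', hu, h]
          exact (Finset.card_le_card this).trans (Finset.card_insert_le _ _)
        have f1 : O.card ≤ 1 := by
          rw [Finset.card_le_one]
          intro u hu v hv
          simp only [hO, hC1, Finset.mem_filter, Finset.mem_range] at hu hv
          by_contra hne
          rcases Nat.lt_or_gt_of_ne hne with h | h
          · exact hT u v a i (i + 1) b h (by omega) (by omega) (by omega) (by omega)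
              hu.1.2.1 hv.1.2.2 hpE
          · exact hT v u a i (i + 1) b h (by omega) (by omega) (by omega) (by omega)
              hv.1.2.1 hu.1.2.2 hpE
        have f2 : O'.card ≤ 1 := by
          rw [Finset.card_le_one]
          intro u hu v hv
          simp only [hO', hC2, Finset.mem_filter, Finset.mem_range] at hu hv
          by_contra hne
          rcases Nat.lt_or_gt_of_ne hne with h | h
          · exact hT a i (i + 1) b u v (by omega) (by omega) (by omega) (by omega) h
              hpE hu.1.2.1 hv.1.2.2
          · exact hT a i (i + 1) b v u (by omega) (by omega) (by omega) (by omega) h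
              hpE hv.1.2.1 hu.1.2.2
        have f3 : O.card = 0 ∨ O'.card = 0 := by
          by_contra hcon
          push Not at hcon
          obtain ⟨u, hu⟩ := Finset.card_pos.mp (Nat.pos_of_ne_zero hcon.1)
          obtain ⟨v, hv⟩ := Finset.card_pos.mp (Nat.pos_of_ne_zero hcon.2)
          simp only [hO, hC1, Finset.mem_filter, Finset.mem_range] at hu
          simp only [hO', hC2, Finset.mem_filter, Finset.mem_range] at hv
          exact hT u a i (i + 1) b v (by omega) (by omega) (by omega) (by omega) (by omega)
            hu.1.2.2 hpE hv.1.2.1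
        omega
      -- injectivity off the collisions
      set F := (E1 \ (C1.image fun u => (u, i + 1))) \ (C2.image fun v => (i + 1, v)) with hF
      have hFinj : Set.InjOn (fun p : ℕ × ℕ => (ctr i p.1, ctr i p.2)) (F : Set (ℕ × ℕ)) := by
        rintro ⟨x, y⟩ hx ⟨x', y'⟩ hx' heq
        simp only [hF, hE1, hC1, hC2, Finset.coe_sdiff, Set.mem_sdiff, Finset.mem_coe,
          Finset.mem_erase, Finset.mem_image, Finset.mem_filter, Finset.mem_range,
          Prod.mk.injEq, not_exists, not_and] at hx hx' heq
        obtain ⟨⟨⟨q1, q2⟩, q3⟩, q4⟩ := hx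
        obtain ⟨⟨⟨r1, r2⟩, r3⟩, r4⟩ := hx'
        have g1 := hE _ q2
        have g2 := hE _ r2
        simp only at g1 g2
        obtain ⟨h1, h2'⟩ := heq
        unfold ctr at h1 h2'
        by_contra hne
        have hne' : ¬ (x = x' ∧ y = y') := by
          rintro ⟨rfl, rfl⟩
          exact hne rfl
        by_cases hxx : x = x'
        · subst hxx
          have hyy : (y = i ∧ y' = i + 1) ∨ (y = i + 1 ∧ y' = i) := by
            split_ifs at h2' <;> omega
          rcases hyy with ⟨rfl, rfl⟩ | ⟨rfl, rfl⟩
          · exact r3 x ⟨by omega, q2, r2⟩ rfl rfl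
          · exact q3 x ⟨by omega, r2, q2⟩ rfl rfl
        · have hxx' : (x = i ∧ x' = i + 1) ∨ (x = i + 1 ∧ x' = i) := by
            split_ifs at h1 <;> omega
          rcases hxx' with ⟨hx1, hx2⟩ | ⟨hx1, hx2⟩
          · have hyy : y = y' := by
              by_contra hy
              have : ¬ (y = i + 1) := fun h => q1 (by rw [hx1, h])
              split_ifs at h2' <;> omega
            subst hyy
            exact r4 y ⟨by omega, by rw [← hx1]; exact q2, by rw [← hx2]; exact r2⟩ hx2.symm rfl
          · have hyy : y = y' := by
              by_contra hy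
              have : ¬ (y' = i + 1) := fun h => r1 (by rw [hx2, h])
              split_ifs at h2' <;> omega
            subst hyy
            exact q4 y ⟨by omega, by rw [← hx2]; exact r2, by rw [← hx1]; exact q2⟩ hx1.symm rfl
      have hFc : F.card ≤ E2.card := by
        have : F.image (fun p : ℕ × ℕ => (ctr i p.1, ctr i p.2)) ⊆ E2 := by
          rw [hE2]
          apply Finset.image_subset_image
          intro p hp
          simp only [hF, Finset.mem_sdiff] at hp
          exact hp.1.1
        calc F.card = (F.image (fun p : ℕ × ℕ => (ctr i p.1, ctr i p.2))).card :=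
              (Finset.card_image_of_injOn hFinj).symm
          _ ≤ E2.card := Finset.card_le_card this
      have c1 : E.card ≤ E1.card + 1 := by
        rw [hE1]
        have := Finset.pred_card_le_card_erase (s := E) (a := (i, i + 1))
        omega
      have c2 : E1.card ≤ F.card + C1.card + C2.card := by
        have s1 : E1.card ≤ (E1 \ (C1.image fun u => (u, i + 1))).card +
            (C1.image fun u => (u, i + 1)).card := by
          have := Finset.le_card_sdiff (C1.image fun u => (u, i + 1)) E1
          omega
        have s2 : (E1 \ (C1.image fun u => (u, i + 1))).card ≤ F.card +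
            (C2.image fun v => (i + 1, v)).card := by
          have := Finset.le_card_sdiff (C2.image fun v => (i + 1, v))
            (E1 \ (C1.image fun u => (u, i + 1)))
          rw [← hF] at this
          omega
        have s3 : (C1.image fun u => (u, i + 1)).card ≤ C1.card := Finset.card_image_le
        have s4 : (C2.image fun v => (i + 1, v)).card ≤ C2.card := Finset.card_image_le
        omega
      omega
    · push Not at hlong
      have hsub : E ⊆ ((Finset.range n).image fun j => (j, j + 1)) ∪
          ((Finset.range n).image fun j => (j, j + 2)) := by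
        rintro ⟨x, y⟩ hp
        have h1 := hE _ hp
        have h2 := hlong _ hp
        simp only at h1 h2
        simp only [Finset.mem_union, Finset.mem_image, Finset.mem_range, Prod.mk.injEq]
        rcases (by omega : y = x + 1 ∨ y = x + 2) with h | h
        · left; exact ⟨x, by omega, rfl, h.symm⟩
        · right; exact ⟨x, by omega, rfl, h.symm⟩
      have h1 := Finset.card_le_card hsub
      have h2 := Finset.card_union_le ((Finset.range n).image fun j : ℕ => (j, j + 1))
        ((Finset.range n).image fun j => (j, j + 2))
      have h3 : ((Finset.range n).image fun j : ℕ => (j, j + 1)).card ≤ n := by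
        simpa using (Finset.card_image_le (s := Finset.range n) (f := fun j : ℕ => (j, j + 1)))
      have h4 : ((Finset.range n).image fun j : ℕ => (j, j + 2)).card ≤ n := by
        simpa using (Finset.card_image_le (s := Finset.range n) (f := fun j : ℕ => (j, j + 2)))
      omega

/-- A maximum set contains all pairs of points at circular distance at most two. -/
theorem short_mem (n : ℕ) (hn : 5 ≤ n) (E : Finset (ℕ × ℕ))
    (hE : ∀ p ∈ E, p.1 < p.2 ∧ p.2 < n) (hT : TF E) (hc : 4 * n ≤ E.card + 10)
    (a b : ℕ) (hab : a < b) (hb : b < n) (hs : b ≤ a + 2 ∨ a + n ≤ b + 2) : (a, b) ∈ E := by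
  by_contra hcon
  have h1 := ext_bound n hn (insert (a, b) E) (by
    intro p hp
    rcases Finset.mem_insert.mp hp with rfl | h
    · exact ⟨hab, hb⟩
    · exact hE p h) (by
    intro p1 p2 p3 p4 p5 p6 h12 h23 h34 h45 h56 m1 m2 m3
    have hlt : ∀ x y : ℕ, (x, y) ∈ insert (a, b) E → y < n := by
      intro x y hxy
      rcases Finset.mem_insert.mp hxy with h | h
      · simp only [Prod.mk.injEq] at h
        omega
      · exact (hE _ h).2
    have l1 := hlt _ _ m1
    have l2 := hlt _ _ m2
    have l3 := hlt _ _ m3
    rw [Finset.mem_insert] at m1 m2 m3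
    rcases m1 with m1 | m1
    · simp only [Prod.mk.injEq] at m1
      omega
    rcases m2 with m2 | m2
    · simp only [Prod.mk.injEq] at m2
      omega
    rcases m3 with m3 | m3
    · simp only [Prod.mk.injEq] at m3
      omega
    exact hT p1 p2 p3 p4 p5 p6 h12 h23 h34 h45 h56 m1 m2 m3)
  rw [Finset.card_insert_of_notMem hcon] at h1
  omega

end Pool.Agent.Lib.MP_cd28a7_co.W
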