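import Pool.Agent.Lib.MP_cd28a7_co.W.Rigid

/-!
MP_cd28a7_co, witnessing layouts: crossings of chords with four different indices are the natural
ones in every layout of `T` without three pairwise crossing edges.
-/

set_option autoImplicit false

namespace Pool.Agent.Lib.MP_cd28a7_co.W

/-- the data of a step -/
def Q (r : ℕ → ℕ) (s : ℤ) (i : ℕ) : Prop :=
  ((r (3 * i + 5) : ℤ) - r (3 * i + 2) - 3 * s) % 345 = 0 ∧
    ((((r (3 * i + 3) : ℤ) - r (3 * i + 2) - s) % 345 = 0 ∧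
      ((r (3 * i + 4) : ℤ) - r (3 * i + 2) - 2 * s) % 345 = 0) ∨
     (((r (3 * i + 3) : ℤ) - r (3 * i + 2) - 2 * s) % 345 = 0 ∧
      ((r (3 * i + 4) : ℤ) - r (3 * i + 2) - s) % 345 = 0))

theorem eqmod {x y : ℕ} (hx : x < 345) (hy : y < 345) (h : ((x : ℤ) - y) % 345 = 0) : x = y := by
  omega

section

variable (r : ℕ → ℕ) (hr : ∀ u < 345, r u < 345) (hinj : ∀ u < 345, ∀ v < 345, r u = r v → u = v)
  (hq : ∀ a b c d e g : ℕ, TA a b → TA c d → TA e g → r a < r c → r c < r e → r e < r b →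
    r b < r d → r d < r g → False)

include hr hinj

theorem same_dir (i : ℕ) (hi : i < 113) (s s' : ℤ) (hs : s = 1 ∨ s = -1) (hs' : s' = 1 ∨ s' = -1)
    (h : Q r s i) (h' : Q r s' (i + 1)) : s' = s := by
  by_contra hne
  have hss : s' = -s := by omega
  subst hss
  unfold Q at h h'
  have e6 : 3 * (i + 1) + 3 = 3 * i + 6 := by ring
  have e7 : 3 * (i + 1) + 4 = 3 * i + 7 := by ring
  have e5 : 3 * (i + 1) + 2 = 3 * i + 5 := by ring
  rw [e6, e7, e5] at h'
  have h3 := hr (3 * i + 3) (by omega)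
  have h4 := hr (3 * i + 4) (by omega)
  have h6 := hr (3 * i + 6) (by omega)
  have n1 : r (3 * i + 6) ≠ r (3 * i + 3) := fun h => by
    have := hinj _ (by omega) _ (by omega) h
    omega
  have n2 : r (3 * i + 6) ≠ r (3 * i + 4) := fun h => by
    have := hinj _ (by omega) _ (by omega) h
    omega
  obtain ⟨hA, hB⟩ := h
  obtain ⟨-, hB'⟩ := h'
  rcases hB with ⟨b1, b2⟩ | ⟨b1, b2⟩ <;> rcases hB' with ⟨c1, -⟩ | ⟨c1, -⟩
  · exact n2 (eqmod h6 h4 (by omega))
  · exact n1 (eqmod h6 h3 (by omega))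
  · exact n1 (eqmod h6 h3 (by omega))
  · exact n2 (eqmod h6 h4 (by omega))

include hq

theorem chain : ∃ s : ℤ, (s = 1 ∨ s = -1) ∧ ∀ i < 114, Q r s i := by
  obtain ⟨s, hs, h0⟩ := step r hr hinj hq 0 (by norm_num)
  refine ⟨s, hs, ?_⟩
  intro i
  induction i with
  | zero => intro _; exact h0
  | succ i ih =>
    intro hi
    obtain ⟨s', hs', h1⟩ := step r hr hinj hq (i + 1) hi
    have := same_dir r hr hinj i (by omega) s s' hs hs' (ih (by omega)) h1
    subst this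
    exact h1

theorem formula : ∃ s : ℤ, (s = 1 ∨ s = -1) ∧ ∀ i : ℕ, i < 115 → ∃ k : ℤ,
    (k = 3 * (i : ℤ) - 1 ∨ k = 3 * (i : ℤ) - 2) ∧ ((r (3 * i) : ℤ) - r 2 - s * k) % 345 = 0 := by
  obtain ⟨s, hs, hQ⟩ := chain r hr hinj hq
  have hw : ∀ i : ℕ, i < 115 → ((r (3 * i + 2) : ℤ) - r 2 - s * (3 * i)) % 345 = 0 := by
    intro i
    induction i with
    | zero => intro _; simp
    | succ i ih =>
      intro hi
      have h1 := ih (by omega)
      have h2 := (hQ i (by omega)).1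
      rw [show 3 * (i + 1) + 2 = 3 * i + 5 by ring]
      rcases hs with rfl | rfl <;> push_cast <;> omega
  refine ⟨s, hs, ?_⟩
  intro i hi
  cases i with
  | zero =>
    obtain ⟨d, hd, hd'⟩ := disp r hr hinj hq 0 0 (by norm_num) (by left; rfl)
    have hQ0 := (hQ 0 (by norm_num)).2
    simp only [Nat.mul_zero, Nat.zero_add] at hd' hQ0 ⊢
    have h0 := hr 0 (by norm_num)
    have h3 := hr 3 (by norm_num)
    have h4 := hr 4 (by norm_num)
    have n1 : r 0 ≠ r 3 := fun h => by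
      have := hinj _ (by norm_num) _ (by norm_num) h
      omega
    have n2 : r 0 ≠ r 4 := fun h => by
      have := hinj _ (by norm_num) _ (by norm_num) h
      omega
    have hds : d = -s ∨ d = -(2 * s) := by
      by_contra hcon
      have hd2 : d = s ∨ d = 2 * s := by
        rcases hs with rfl | rfl <;> rcases hd with rfl | rfl | rfl | rfl <;> omega
      rcases hd2 with rfl | rfl <;> rcases hQ0 with ⟨q1, q2⟩ | ⟨q1, q2⟩
      · exact n1 (eqmod h0 h3 (by omega))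
      · exact n2 (eqmod h0 h4 (by omega))
      · exact n2 (eqmod h0 h4 (by omega))
      · exact n1 (eqmod h0 h3 (by omega))
    rcases hds with rfl | rfl
    · exact ⟨-1, by simp, by rcases hs with rfl | rfl <;> omega⟩
    · exact ⟨-2, by simp, by rcases hs with rfl | rfl <;> omega⟩
  | succ i =>
    have h1 := hw i (by omega)
    have h2 := (hQ i (by omega)).2
    rw [show 3 * (i + 1) = 3 * i + 3 by ring]
    rcases h2 with ⟨q1, -⟩ | ⟨q1, -⟩
    · refine ⟨3 * ((i + 1 : ℕ) : ℤ) - 2, by simp, ?_⟩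
      rcases hs with rfl | rfl <;> push_cast <;> omega
    · refine ⟨3 * ((i + 1 : ℕ) : ℤ) - 1, by simp, ?_⟩
      rcases hs with rfl | rfl <;> push_cast <;> omega

end

theorem unroll (x0 x : ℕ) (k : ℤ) (h0 : x0 < 345) (hx : x < 345) (hk : -2 ≤ k) (hk' : k ≤ 341)
    (h : ((x : ℤ) - x0 - k) % 345 = 0) :
    ∃ t : ℤ, (x : ℤ) = x0 + k - 345 * t ∧ -1 ≤ t ∧ t ≤ 1 := by
  refine ⟨-(((x : ℤ) - x0 - k) / 345), by omega, ?_, ?_⟩ <;> omega

theorem unroll' (x0 x : ℕ) (k : ℤ) (h0 : x0 < 345) (hx : x < 345) (hk : -2 ≤ k) (hk' : k ≤ 341)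
    (h : ((x : ℤ) - x0 - -k) % 345 = 0) :
    ∃ t : ℤ, (x : ℤ) = x0 - k + 345 * t ∧ -1 ≤ t ∧ t ≤ 1 := by
  refine ⟨((x : ℤ) - x0 - -k) / 345, by omega, ?_, ?_⟩ <;> omega

/-- four points in circular order -/
def Alt (A C B D : ℕ) : Prop :=
  (A < C ∧ C < B ∧ B < D) ∨ (C < B ∧ B < D ∧ D < A) ∨ (B < D ∧ D < A ∧ A < C) ∨
  (D < A ∧ A < C ∧ C < B) ∨ (D < B ∧ B < C ∧ C < A) ∨ (B < C ∧ C < A ∧ A < D) ∨
  (C < A ∧ A < D ∧ D < B) ∨ (A < D ∧ D < B ∧ B < C)

theorem alt_pos (x0 A C B D : ℕ) (ka kc kb kd : ℤ) (h0 : x0 < 345) (hA : A < 345) (hB : B < 345)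
    (hC : C < 345) (hD : D < 345) (k1 : -2 ≤ ka) (k2 : ka < kc) (k3 : kc < kb) (k4 : kb < kd)
    (k5 : kd ≤ 341) (e1 : ((A : ℤ) - x0 - ka) % 345 = 0) (e2 : ((C : ℤ) - x0 - kc) % 345 = 0)
    (e3 : ((B : ℤ) - x0 - kb) % 345 = 0) (e4 : ((D : ℤ) - x0 - kd) % 345 = 0) : Alt A C B D := by
  obtain ⟨ta, f1, g1, g1'⟩ := unroll x0 A ka h0 hA k1 (by omega) e1
  obtain ⟨tc, f2, g2, g2'⟩ := unroll x0 C kc h0 hC (by omega) (by omega) e2
  obtain ⟨tb, f3, g3, g3'⟩ := unroll x0 B kb h0 hB (by omega) (by omega) e3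
  obtain ⟨td, f4, g4, g4'⟩ := unroll x0 D kd h0 hD (by omega) (by omega) e4
  clear e1 e2 e3 e4
  have t1 : ta ≤ tc := by omega
  have t2 : tc ≤ tb := by omega
  have t3 : tb ≤ td := by omega
  have t4 : td ≤ ta + 1 := by omega
  unfold Alt
  rcases (by omega : tc = ta ∨ tc = ta + 1) with h | h
  · rcases (by omega : tb = ta ∨ tb = ta + 1) with h' | h'
    · rcases (by omega : td = ta ∨ td = ta + 1) with h'' | h''
      · left; omega
      · right; right; right; left; omega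
    · right; right; left; omega
  · right; left; omega

theorem alt_neg (x0 A C B D : ℕ) (ka kc kb kd : ℤ) (h0 : x0 < 345) (hA : A < 345) (hB : B < 345)
    (hC : C < 345) (hD : D < 345) (k1 : -2 ≤ ka) (k2 : ka < kc) (k3 : kc < kb) (k4 : kb < kd)
    (k5 : kd ≤ 341) (e1 : ((A : ℤ) - x0 - -ka) % 345 = 0) (e2 : ((C : ℤ) - x0 - -kc) % 345 = 0)
    (e3 : ((B : ℤ) - x0 - -kb) % 345 = 0) (e4 : ((D : ℤ) - x0 - -kd) % 345 = 0) :
    Alt A C B D := by
  obtain ⟨ta, f1, g1, g1'⟩ := unroll' x0 A ka h0 hA k1 (by omega) e1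
  obtain ⟨tc, f2, g2, g2'⟩ := unroll' x0 C kc h0 hC (by omega) (by omega) e2
  obtain ⟨tb, f3, g3, g3'⟩ := unroll' x0 B kb h0 hB (by omega) (by omega) e3
  obtain ⟨td, f4, g4, g4'⟩ := unroll' x0 D kd h0 hD (by omega) (by omega) e4
  clear e1 e2 e3 e4
  have t1 : ta ≤ tc := by omega
  have t2 : tc ≤ tb := by omega
  have t3 : tb ≤ td := by omega
  have t4 : td ≤ ta + 1 := by omega
  unfold Alt
  rcases (by omega : tc = ta ∨ tc = ta + 1) with h | h
  · rcases (by omega : tb = ta ∨ tb = ta + 1) with h' | h'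
    · rcases (by omega : td = ta ∨ td = ta + 1) with h'' | h''
      · right; right; right; right; left; omega
      · right; right; right; right; right; left; omega
    · right; right; right; right; right; right; left; omega
  · right; right; right; right; right; right; right; omega

/-- the crossings of `m`-chords are the natural ones -/
theorem crossing (r : ℕ → ℕ) (hr : ∀ u < 345, r u < 345)
    (hinj : ∀ u < 345, ∀ v < 345, r u = r v → u = v)
    (hq : ∀ a b c d e g : ℕ, TA a b → TA c d → TA e g → r a < r c → r c < r e → r e < r b →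
      r b < r d → r d < r g → False) (a c b d : ℕ) (h1 : a < c) (h2 : c < b) (h3 : b < d)
    (h4 : d < 115) : Alt (r (3 * a)) (r (3 * c)) (r (3 * b)) (r (3 * d)) := by
  obtain ⟨s, hs, hF⟩ := formula r hr hinj hq
  obtain ⟨ka, qa, ea⟩ := hF a (by omega)
  obtain ⟨kc, qc, ec⟩ := hF c (by omega)
  obtain ⟨kb, qb, eb⟩ := hF b (by omega)
  obtain ⟨kd, qd, ed⟩ := hF d (by omega)
  have x0 := hr 2 (by norm_num)
  have xa := hr (3 * a) (by omega)
  have xb := hr (3 * b) (by omega)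
  have xc := hr (3 * c) (by omega)
  have xd := hr (3 * d) (by omega)
  rcases hs with rfl | rfl
  · simp only [one_mul] at ea eb ec ed
    exact alt_pos (r 2) _ _ _ _ ka kc kb kd x0 xa xb xc xd (by omega) (by omega) (by omega)
      (by omega) (by omega) ea ec eb ed
  · simp only [neg_mul, one_mul] at ea eb ec ed
    exact alt_neg (r 2) _ _ _ _ ka kc kb kd x0 xa xb xc xd (by omega) (by omega) (by omega)
      (by omega) (by omega) ea ec eb ed

end Pool.Agent.Lib.MP_cd28a7_co.W
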