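import Pool.Agent.Lib.MP_cd28a7_co.W.Gad
import Pool.Agent.Lib.MP_cd28a7_co.W.Rigid2

/-!
MP_cd28a7_co, witnessing layouts: five gadgets in a pentagon have no proper colouring with four
colours; hence no witnessing layout of `T` has a partition into four pages.
-/

set_option autoImplicit false

namespace Pool.Agent.Lib.MP_cd28a7_co.W

/-- position of the apex of gadget `g` -/
def ap (g : ℕ) : ℕ := 23 * g

/-- position of the block of gadget `g` -/
def bs (g : ℕ) : ℕ := 23 * ((g + 1) % 5) + 1

def tab (u v : ℕ) : Bool := (nb (3 * u)).any fun w => Nat.beq w (3 * v)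

theorem tab_TA {u v : ℕ} (h : tab u v = true) : TA (3 * u) (3 * v) := by
  unfold tab at h
  rw [List.any_eq_true] at h
  obtain ⟨w, h1, h2⟩ := h
  have := Nat.eq_of_beq_eq_true h2
  subst this
  exact Or.inl h1

def gadOK (g : ℕ) : Bool :=
  (L.all fun q => tab (bs g + q.1) (bs g + q.2)) &&
    pe.all fun v => tab (ap g) (bs g + v) || tab (bs g + v) (ap g)

set_option maxRecDepth 100000 in
theorem gad_ok : (gadOK 0 && gadOK 1 && gadOK 2 && gadOK 3 && gadOK 4) = true := by
  decide +kernel

theorem gadOK_lt {g : ℕ} (hg : g < 5) : gadOK g = true := by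
  have h := gad_ok
  simp only [Bool.and_eq_true] at h
  obtain ⟨⟨⟨⟨h0, h1⟩, h2⟩, h3⟩, h4⟩ := h
  interval_cases g <;> assumption

theorem inner_TA {g a b : ℕ} (hg : g < 5) (h : (a, b) ∈ L) :
    TA (3 * (bs g + a)) (3 * (bs g + b)) := by
  have h1 := gadOK_lt hg
  rw [gadOK, Bool.and_eq_true, List.all_eq_true] at h1
  exact tab_TA (h1.1 _ h)

theorem apex_TA {g v : ℕ} (hg : g < 5) (h : v ∈ pe) : TA (3 * ap g) (3 * (bs g + v)) := by
  have h1 := gadOK_lt hg
  rw [gadOK, Bool.and_eq_true, List.all_eq_true, List.all_eq_true] at h1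
  have h2 := h1.2 v h
  rw [Bool.or_eq_true] at h2
  rcases h2 with h2 | h2
  · exact tab_TA h2
  · exact TA_symm (tab_TA h2)

theorem pe_lt {v : ℕ} (h : v ∈ pe) : v < 22 := by
  revert h
  unfold pe
  simp only [List.mem_cons, List.not_mem_nil, or_false]
  omega

theorem L_lt {a b : ℕ} (h : (a, b) ∈ L) : b < 22 := by
  have h1 : (L.all fun q => decide (q.2 < 22)) = true := by decide
  rw [List.all_eq_true] at h1
  simpa using h1 _ h

theorem pent (P0 P1 P2 P3 P4 : Finset (Fin 4)) (c0 : 2 ≤ P0.card) (c1 : 2 ≤ P1.card)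
    (c2 : 2 ≤ P2.card) (c3 : 2 ≤ P3.card) (c4 : 2 ≤ P4.card) (d0 : Disjoint P0 P1)
    (d1 : Disjoint P1 P2) (d2 : Disjoint P2 P3) (d3 : Disjoint P3 P4) (d4 : Disjoint P4 P0) :
    False := by
  have key : ∀ A B : Finset (Fin 4), 2 ≤ A.card → 2 ≤ B.card → Disjoint A B → B = Aᶜ := by
    intro A B hA hB hAB
    apply Finset.eq_of_subset_of_card_le
    · exact Finset.subset_compl_iff_disjoint_right.mpr hAB.symm
    · rw [Finset.card_compl, Fintype.card_fin]
      omega
  have e1 := key P0 P1 c0 c1 d0
  have e2 := key P1 P2 c1 c2 d1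
  have e3 := key P2 P3 c2 c3 d2
  have e4 := key P3 P4 c3 c4 d3
  have h : P4 = P0 := by rw [e4, e3, e2, e1]; simp
  rw [h, disjoint_self] at d4
  rw [d4] at c0
  simp at c0

/-- the pentagon of gadgets is not 4-colourable -/
theorem no_four (K : ℕ → ℕ → Fin 4)
    (hK : ∀ a c b d : ℕ, a < c → c < b → b < d → d < 115 → TA (3 * a) (3 * b) →
      TA (3 * c) (3 * d) → K a b ≠ K c d) : False := by
  -- colours of the apex chords
  let pc : ℕ → ℕ → Fin 4 := fun g v => if g = 4 then K (bs g + v) (ap g) else K (ap g) (bs g + v)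
  let P : ℕ → Finset (Fin 4) := fun g => (pe.toFinset).image (pc g)
  have hb : ∀ g < 5, (g = 4 ∧ ap g = 92 ∧ bs g = 1) ∨ (g < 4 ∧ ap g = 23 * g ∧ bs g = 23 * g + 24) := by
    intro g hg
    unfold ap bs
    interval_cases g <;> simp
  have hcard : ∀ g < 5, 2 ≤ (P g).card := by
    intro g hg
    by_contra hcon
    push Not at hcon
    have h0 : pc g 1 ∈ P g := by
      refine Finset.mem_image_of_mem _ ?_
      rw [List.mem_toFinset]
      decide
    have hall : ∀ v ∈ pe, pc g v = pc g 1 := by
      intro v hv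
      have h1 : pc g v ∈ P g := Finset.mem_image_of_mem _ (by rw [List.mem_toFinset]; exact hv)
      exact Finset.card_le_one.mp (by omega) _ h1 _ h0
    refine gadget (fun u v => K (bs g + u) (bs g + v)) (pc g 1) ?_ ?_
    · intro a b c d h1 h2 h3 h4 h5
      have := L_lt h2
      exact hK (bs g + a) (bs g + c) (bs g + b) (bs g + d) (by omega) (by omega) (by omega)
        (by rcases hb g hg with ⟨e1, e2, e3⟩ | ⟨e1, e2, e3⟩ <;> omega)
        (inner_TA hg h1) (inner_TA hg h2)
    · intro a b v h1 hv h3 h4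
      have hb22 := L_lt h1
      rw [← hall v hv]
      show _ ≠ if g = 4 then K (bs g + v) (ap g) else K (ap g) (bs g + v)
      rcases hb g hg with ⟨e1, e2, e3⟩ | ⟨e1, e2, e3⟩
      · rw [if_pos e1]
        exact hK (bs g + a) (bs g + v) (bs g + b) (ap g) (by omega) (by omega) (by omega)
          (by omega) (inner_TA hg h1) (TA_symm (apex_TA hg hv))
      · rw [if_neg (by omega)]
        exact (hK (ap g) (bs g + a) (bs g + v) (bs g + b) (by omega) (by omega) (by omega)
          (by omega) (apex_TA hg hv) (inner_TA hg h1)).symm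
  have hdis : ∀ g < 3, Disjoint (P g) (P (g + 1)) := by
    intro g hg
    rw [Finset.disjoint_left]
    intro x hx hx'
    simp only [P, Finset.mem_image, List.mem_toFinset] at hx hx'
    obtain ⟨v, hv, rfl⟩ := hx
    obtain ⟨w, hw, hw'⟩ := hx'
    have l1 := pe_lt hv
    have l2 := pe_lt hw
    have q1 := hb g (by omega)
    have q2 := hb (g + 1) (by omega)
    simp only [pc] at hw'
    rw [if_neg (by omega), if_neg (by omega)] at hw'
    exact hK (ap g) (ap (g + 1)) (bs g + v) (bs (g + 1) + w) (by omega) (by omega) (by omega)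
      (by omega) (apex_TA (by omega) hv) (apex_TA (by omega) hw) hw'.symm
  have hd3 : Disjoint (P 3) (P 4) := by
    rw [Finset.disjoint_left]
    intro x hx hx'
    simp only [P, Finset.mem_image, List.mem_toFinset] at hx hx'
    obtain ⟨v, hv, rfl⟩ := hx
    obtain ⟨w, hw, hw'⟩ := hx'
    have l1 := pe_lt hv
    have l2 := pe_lt hw
    have q1 := hb 3 (by omega)
    have q2 := hb 4 (by omega)
    simp only [pc] at hw'
    rw [if_pos trivial, if_neg (by omega)] at hw'
    exact hK (bs 4 + w) (ap 3) (ap 4) (bs 3 + v) (by omega) (by omega) (by omega)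
      (by omega) (TA_symm (apex_TA (by omega) hw)) (apex_TA (by omega) hv) hw'
  have hd4 : Disjoint (P 4) (P 0) := by
    rw [Finset.disjoint_left]
    intro x hx hx'
    simp only [P, Finset.mem_image, List.mem_toFinset] at hx hx'
    obtain ⟨v, hv, rfl⟩ := hx
    obtain ⟨w, hw, hw'⟩ := hx'
    have l1 := pe_lt hv
    have l2 := pe_lt hw
    have q1 := hb 4 (by omega)
    have q2 := hb 0 (by omega)
    simp only [pc] at hw'
    rw [if_pos trivial, if_neg (by omega)] at hw'
    exact hK (ap 0) (bs 4 + v) (bs 0 + w) (ap 4) (by omega) (by omega) (by omega)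
      (by omega) (apex_TA (by omega) hw) (TA_symm (apex_TA (by omega) hv)) hw'
  exact pent (P 0) (P 1) (P 2) (P 3) (P 4) (hcard 0 (by omega)) (hcard 1 (by omega))
    (hcard 2 (by omega)) (hcard 3 (by omega)) (hcard 4 (by omega)) (hdis 0 (by omega))
    (hdis 1 (by omega)) (hdis 2 (by omega)) hd3 hd4

/-- A layout (a permutation) of `T` without three pairwise crossing edges has no four pages. -/
theorem no_pages_perm (r : ℕ → ℕ) (hr : ∀ u < 345, r u < 345)
    (hinj : ∀ u < 345, ∀ v < 345, r u = r v → u = v)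
    (hq : ∀ a b c d e g : ℕ, TA a b → TA c d → TA e g → r a < r c → r c < r e → r e < r b →
      r b < r d → r d < r g → False) (p : ℕ → ℕ → Fin 4)
    (hp : ∀ a b c d : ℕ, TA a b → TA c d → r a < r c → r c < r b → r b < r d → p a b ≠ p c d) :
    False := by
  refine no_four (fun a b => if r (3 * a) < r (3 * b) then p (3 * a) (3 * b)
    else p (3 * b) (3 * a)) ?_
  intro a c b d h1 h2 h3 h4 tab tcd
  have hA := crossing r hr hinj hq a c b d h1 h2 h3 h4
  have tba := TA_symm tab
  have tdc := TA_symm tcd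
  generalize 3 * a = a at *
  generalize 3 * b = b at *
  generalize 3 * c = c at *
  generalize 3 * d = d at *
  show (if r a < r b then p a b else p b a) ≠ (if r c < r d then p c d else p d c)
  unfold Alt at hA
  rcases hA with h | h | h | h | h | h | h | h
  · rw [if_pos (by omega), if_pos (by omega)]
    exact hp a b c d tab tcd (by omega) (by omega) (by omega)
  · rw [if_neg (by omega), if_pos (by omega)]
    exact (hp c d b a tcd tba (by omega) (by omega) (by omega)).symm
  · rw [if_neg (by omega), if_neg (by omega)]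
    exact hp b a d c tba tdc (by omega) (by omega) (by omega)
  · rw [if_pos (by omega), if_neg (by omega)]
    exact (hp d c a b tdc tab (by omega) (by omega) (by omega)).symm
  · rw [if_neg (by omega), if_neg (by omega)]
    exact (hp d c b a tdc tba (by omega) (by omega) (by omega)).symm
  · rw [if_neg (by omega), if_pos (by omega)]
    exact hp b a c d tba tcd (by omega) (by omega) (by omega)
  · rw [if_pos (by omega), if_pos (by omega)]
    exact (hp c d a b tcd tab (by omega) (by omega) (by omega)).symm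
  · rw [if_pos (by omega), if_neg (by omega)]
    exact hp a b d c tab tdc (by omega) (by omega) (by omega)

/-- the rank of `f u` among the values of `f` -/
noncomputable def rk (f : ℕ → ℕ) (u : ℕ) : ℕ := ((Finset.range 345).filter fun v => f v < f u).card

theorem rk_lt (f : ℕ → ℕ) {u v : ℕ} (hu : u < 345) (h : f u < f v) : rk f u < rk f v := by
  unfold rk
  apply Finset.card_lt_card
  rw [Finset.ssubset_iff_of_subset]
  · exact ⟨u, by simp [hu, h], by simp⟩
  · intro w hw
    simp only [Finset.mem_filter] at hw ⊢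
    exact ⟨hw.1, by omega⟩

theorem rk_lt_iff (f : ℕ → ℕ) (hinj : ∀ u < 345, ∀ v < 345, f u = f v → u = v) {u v : ℕ}
    (hu : u < 345) (hv : v < 345) : rk f u < rk f v ↔ f u < f v := by
  constructor
  · intro h
    by_contra hcon
    rcases Nat.eq_or_lt_of_le (not_lt.mp hcon) with h' | h'
    · have := hinj _ hv _ hu h'
      subst this
      omega
    · have := rk_lt f hv h'
      omega
  · exact rk_lt f hu

theorem rk_bound (f : ℕ → ℕ) {u : ℕ} (hu : u < 345) : rk f u < 345 := by
  unfold rk
  have : ((Finset.range 345).filter fun v => f v < f u) ⊂ Finset.range 345 := by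
    rw [Finset.ssubset_iff_of_subset (Finset.filter_subset _ _)]
    exact ⟨u, by simp [hu], by simp⟩
  have := Finset.card_lt_card this
  simpa using this

theorem TA_lt {a b : ℕ} (h : TA a b) : a < 345 ∧ b < 345 := by
  rcases h with h | h
  · have := nb_lt h
    omega
  · have := nb_lt h
    omega

/-- A layout of `T` without three pairwise crossing edges has no four pages. -/
theorem no_pages (f : ℕ → ℕ) (hinj : ∀ u < 345, ∀ v < 345, f u = f v → u = v)
    (hq : ∀ a b c d e g : ℕ, TA a b → TA c d → TA e g → f a < f c → f c < f e → f e < f b →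
      f b < f d → f d < f g → False) (p : ℕ → ℕ → Fin 4)
    (hp : ∀ a b c d : ℕ, TA a b → TA c d → f a < f c → f c < f b → f b < f d → p a b ≠ p c d) :
    False := by
  have key := fun {u v : ℕ} (hu : u < 345) (hv : v < 345) => rk_lt_iff f hinj hu hv
  refine no_pages_perm (rk f) (fun u hu => rk_bound f hu) ?_ ?_ p ?_
  · intro u hu v hv h
    by_contra hne
    have : f u ≠ f v := fun h' => hne (hinj u hu v hv h')
    rcases Nat.lt_or_gt_of_ne this with h' | h'
    · have := rk_lt f hu h'
      omega
    · have := rk_lt f hv h'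
      omega
  · intro a b c d e g t1 t2 t3 h1 h2 h3 h4 h5
    have l1 := TA_lt t1
    have l2 := TA_lt t2
    have l3 := TA_lt t3
    rw [key l1.1 l2.1] at h1
    rw [key l2.1 l3.1] at h2
    rw [key l3.1 l1.2] at h3
    rw [key l1.2 l2.2] at h4
    rw [key l2.2 l3.2] at h5
    exact hq a b c d e g t1 t2 t3 h1 h2 h3 h4 h5
  · intro a b c d t1 t2 h1 h2 h3
    have l1 := TA_lt t1
    have l2 := TA_lt t2
    rw [key l1.1 l2.1] at h1
    rw [key l2.1 l1.2] at h2
    rw [key l1.2 l2.2] at h3
    exact hp a b c d t1 t2 h1 h2 h3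

end Pool.Agent.Lib.MP_cd28a7_co.W
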