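import Mathlib

/-!
MP_cd28a7_co, witnessing layouts: the gadget. 38 chords on the points `0, …, 21` and 16 chords from
points of the list `pe` to a point outside; if the latter all have one colour, there is no proper
colouring with 4 colours (a search tree checked by the kernel).
-/

set_option autoImplicit false

namespace Pool.Agent.Lib.MP_cd28a7_co.W

/-- the inner chords of the gadget -/
def L : List (ℕ × ℕ) :=
  [
   (0, 2), (1, 3), (1, 4), (1, 5), (1, 11), (2, 4), (2, 11), (3, 5), (3, 7), (3, 9), (4, 6), (4,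
   7), (5, 7), (6, 8), (6, 9), (7, 9), (8, 10), (8, 11), (9, 11), (10, 12), (10, 13), (11, 13),
   (12, 14), (12, 15), (12, 18), (12, 19), (12, 20), (13, 15), (14, 16), (14, 17), (14, 18), (15,
   17), (16, 18), (16, 20), (17, 19), (17, 20), (18, 20), (19, 21)]

/-- the neighbours of the apex -/
def pe : List ℕ := [1, 2, 5, 6, 7, 8, 9, 10, 11, 12, 13, 14, 15, 16, 19, 20]

/-- search trees: `x` for a blocked colour, `n a b t0 t1 t2 t3`: branch on the colour of `(a, b)` -/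
inductive Tr
  | x : Tr
  | n : ℕ → ℕ → Tr → Tr → Tr → Tr → Tr

def crB (a b c d : ℕ) : Bool :=
  (Nat.blt a c && (Nat.blt c b && Nat.blt b d)) || (Nat.blt c a && (Nat.blt a d && Nat.blt d b))

def blocked (a b : ℕ) (k : List (ℕ × ℕ)) : Bool := k.any fun q => crB a b q.1 q.2

def covers (a b : ℕ) : Bool := pe.any fun v => Nat.blt a v && Nat.blt v b

def memL (a b : ℕ) : Bool := L.any fun q => Nat.beq q.1 a && Nat.beq q.2 b

def chk : Tr → List (ℕ × ℕ) → List (ℕ × ℕ) → List (ℕ × ℕ) → List (ℕ × ℕ) → Bool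
  | Tr.x, _, _, _, _ => false
  | Tr.n a b t0 t1 t2 t3, k0, k1, k2, k3 =>
    memL a b &&
    ((covers a b || (blocked a b k0 || chk t0 ((a, b) :: k0) k1 k2 k3)) &&
    ((blocked a b k1 || chk t1 k0 ((a, b) :: k1) k2 k3) &&
    ((blocked a b k2 || chk t2 k0 k1 ((a, b) :: k2) k3) &&
    (blocked a b k3 || chk t3 k0 k1 k2 ((a, b) :: k3)))))

theorem blt_lt {a b : ℕ} (h : Nat.blt a b = true) : a < b := by
  simpa [Nat.blt] using h

theorem memL_mem {a b : ℕ} (h : memL a b = true) : (a, b) ∈ L := by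
  unfold memL at h
  rw [List.any_eq_true] at h
  obtain ⟨⟨c, d⟩, h1, h2⟩ := h
  rw [Bool.and_eq_true] at h2
  have e1 := Nat.eq_of_beq_eq_true h2.1
  have e2 := Nat.eq_of_beq_eq_true h2.2
  simp only at e1 e2
  rw [← e1, ← e2]
  exact h1

section

variable (col : ℕ → ℕ → Fin 4)
  (hc : ∀ a b c d : ℕ, (a, b) ∈ L → (c, d) ∈ L → a < c → c < b → b < d → col a b ≠ col c d)
  (hp : ∀ a b v : ℕ, (a, b) ∈ L → v ∈ pe → a < v → v < b → col a b ≠ 0)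

include hc

theorem blocked_ne {a b : ℕ} {k : List (ℕ × ℕ)} {j : Fin 4} (hab : (a, b) ∈ L)
    (hk : ∀ q ∈ k, q ∈ L ∧ col q.1 q.2 = j) (h : blocked a b k = true) : col a b ≠ j := by
  unfold blocked at h
  rw [List.any_eq_true] at h
  obtain ⟨⟨c, d⟩, h1, h2⟩ := h
  obtain ⟨h3, h4⟩ := hk _ h1
  unfold crB at h2
  rw [Bool.or_eq_true, Bool.and_eq_true, Bool.and_eq_true, Bool.and_eq_true,
    Bool.and_eq_true] at h2
  simp only at h2 h4
  rw [← h4]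
  rcases h2 with ⟨e1, e2, e3⟩ | ⟨e1, e2, e3⟩
  · exact hc a b c d hab h3 (blt_lt e1) (blt_lt e2) (blt_lt e3)
  · exact (hc c d a b h3 hab (blt_lt e1) (blt_lt e2) (blt_lt e3)).symm

include hp

omit hc in
theorem covers_ne {a b : ℕ} (hab : (a, b) ∈ L) (h : covers a b = true) : col a b ≠ 0 := by
  unfold covers at h
  rw [List.any_eq_true] at h
  obtain ⟨v, h1, h2⟩ := h
  rw [Bool.and_eq_true] at h2
  exact hp a b v hab h1 (blt_lt h2.1) (blt_lt h2.2)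

theorem chk_sound : ∀ (t : Tr) (k0 k1 k2 k3 : List (ℕ × ℕ)), chk t k0 k1 k2 k3 = true →
    (∀ q ∈ k0, q ∈ L ∧ col q.1 q.2 = 0) → (∀ q ∈ k1, q ∈ L ∧ col q.1 q.2 = 1) →
    (∀ q ∈ k2, q ∈ L ∧ col q.1 q.2 = 2) → (∀ q ∈ k3, q ∈ L ∧ col q.1 q.2 = 3) → False := by
  intro t
  induction t with
  | x => intro k0 k1 k2 k3 h; simp [chk] at h
  | n a b t0 t1 t2 t3 i0 i1 i2 i3 =>
    intro k0 k1 k2 k3 h h0 h1 h2 h3
    rw [chk, Bool.and_eq_true, Bool.and_eq_true, Bool.and_eq_true, Bool.and_eq_true] at h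
    obtain ⟨hm, g0, g1, g2, g3⟩ := h
    have hab := memL_mem hm
    have hcons : ∀ (j : Fin 4) (k : List (ℕ × ℕ)), col a b = j →
        (∀ q ∈ k, q ∈ L ∧ col q.1 q.2 = j) → ∀ q ∈ (a, b) :: k, q ∈ L ∧ col q.1 q.2 = j := by
      intro j k hj hk q hq
      rcases List.mem_cons.mp hq with rfl | hq
      · exact ⟨hab, hj⟩
      · exact hk q hq
    have h4 : col a b = 0 ∨ col a b = 1 ∨ col a b = 2 ∨ col a b = 3 := by
      generalize col a b = z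
      revert z
      decide
    rcases h4 with e | e | e | e
    · rw [Bool.or_eq_true, Bool.or_eq_true] at g0
      rcases g0 with g | g | g
      · exact covers_ne col hp hab g e
      · exact blocked_ne col hc hab h0 g e
      · exact i0 _ _ _ _ g (hcons 0 k0 e h0) h1 h2 h3
    · rw [Bool.or_eq_true] at g1
      rcases g1 with g | g
      · exact blocked_ne col hc hab h1 g e
      · exact i1 _ _ _ _ g h0 (hcons 1 k1 e h1) h2 h3
    · rw [Bool.or_eq_true] at g2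
      rcases g2 with g | g
      · exact blocked_ne col hc hab h2 g e
      · exact i2 _ _ _ _ g h0 h1 (hcons 2 k2 e h2) h3
    · rw [Bool.or_eq_true] at g3
      rcases g3 with g | g
      · exact blocked_ne col hc hab h3 g e
      · exact i3 _ _ _ _ g h0 h1 h2 (hcons 3 k3 e h3)

end

open Tr in
/-- the search tree (520 nodes) -/
def tree : Tr :=
  n 10 12 x (n 9 11 x x (n 10 13 x (n 12 20 x x (n 11 13 x x x (n 12 15 x x (n 12 14 x x (n 12 18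
  x x (n 12 19 x x (n 16 20 x (n 19 21 x x x (n 14 17 x x x (n 18 20 x (n 17 20 x (n 14 18 x x x
  (n 17 19 (n 16 18 x x (n 15 17 x x x (n 13 15 x (n 14 16 x x x x) x x)) x) x x x)) x x) x x)))
  x (n 19 21 x (n 14 17 x (n 18 20 x x x (n 17 20 x x x (n 14 18 x (n 17 19 (n 16 18 x x (n 15 17
  x (n 13 15 x x x (n 14 16 x x x x)) x x) x) x x x) x x))) x x) x x)) x) x) x) x)) (n 11 13 x x
  (n 12 15 x x x (n 12 14 x x x (n 12 18 x x x (n 12 19 x x x (n 16 20 x (n 19 21 x x (n 14 17 x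
  x (n 18 20 x (n 17 20 x (n 14 18 x x (n 17 19 (n 16 18 x x x (n 15 17 x x (n 13 15 x (n 14 16 x
  x x x) x x) x)) x x x) x) x x) x x) x) x) (n 19 21 x (n 14 17 x (n 18 20 x x (n 17 20 x x (n 14
  18 x (n 17 19 (n 16 18 x x x (n 15 17 x (n 13 15 x x (n 14 16 x x x x) x) x x)) x x x) x x) x)
  x) x x) x x) x))))) x)) x (n 2 11 x x (n 8 11 x x (n 1 11 x x (n 1 5 x (n 3 9 x x x (n 1 4 x (n
  0 2 x x x (n 1 3 x (n 8 10 x (n 6 9 x x x (n 7 9 x x x (n 3 7 x x (n 6 8 x (n 5 7 x x (n 4 6 x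
  x x (n 2 4 (n 3 5 x x (n 4 7 x x x x) x) x x x)) x) x x) x))) x x) x x)) x x)) x (n 3 9 x (n 1
  4 x x x (n 0 2 x (n 1 3 x x x (n 8 10 x x x (n 6 9 x (n 7 9 x (n 3 7 x x (n 6 8 x x x (n 5 7 x
  x (n 4 6 x (n 2 4 (n 3 5 x x (n 4 7 x x x x) x) x x x) x x) x)) x) x x) x x))) x x)) x x)) x)
  x) x)) (n 10 13 x (n 12 20 x x (n 11 13 x x x (n 12 15 x x (n 12 14 x x (n 12 18 x x (n 12 19 x
  x (n 16 20 x (n 19 21 x x x (n 14 17 x x x (n 18 20 x (n 17 20 x (n 14 18 x x x (n 17 19 (n 16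
  18 x x (n 15 17 x x x (n 13 15 x (n 14 16 x x x x) x x)) x) x x x)) x x) x x))) x (n 19 21 x (n
  14 17 x (n 18 20 x x x (n 17 20 x x x (n 14 18 x (n 17 19 (n 16 18 x x (n 15 17 x (n 13 15 x x
  x (n 14 16 x x x x)) x x) x) x x x) x x))) x x) x x)) x) x) x) x)) (n 11 13 x x (n 12 15 x x x
  (n 12 14 x x x (n 12 18 x x x (n 12 19 x x x (n 16 20 x (n 19 21 x x (n 14 17 x x (n 18 20 x (n
  17 20 x (n 14 18 x x (n 17 19 (n 16 18 x x x (n 15 17 x x (n 13 15 x (n 14 16 x x x x) x x) x))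
  x x x) x) x x) x x) x) x) (n 19 21 x (n 14 17 x (n 18 20 x x (n 17 20 x x (n 14 18 x (n 17 19
  (n 16 18 x x x (n 15 17 x (n 13 15 x x (n 14 16 x x x x) x) x x)) x x x) x x) x) x) x x) x x)
  x))))) x)) (n 2 11 x x x (n 8 11 x x x (n 1 11 x x x (n 1 5 x (n 3 9 x x (n 1 4 x (n 0 2 x x (n
  1 3 x (n 8 10 x (n 6 9 x x (n 7 9 x x (n 3 7 x x x (n 6 8 x (n 5 7 x x x (n 4 6 x x (n 2 4 (n 3
  5 x x x (n 4 7 x x x x)) x x x) x)) x x)) x) x) x x) x x) x) x x) x) (n 3 9 x (n 1 4 x x (n 0 2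
  x (n 1 3 x x (n 8 10 x x (n 6 9 x (n 7 9 x (n 3 7 x x x (n 6 8 x x (n 5 7 x x x (n 4 6 x (n 2 4
  (n 3 5 x x x (n 4 7 x x x x)) x x x) x x)) x)) x x) x x) x) x) x x) x) x x) x)))) x)) (n 9 11 x
  (n 10 13 x x (n 12 20 x (n 11 13 x x x (n 12 15 x (n 12 14 x (n 12 18 x (n 12 19 x (n 16 20 x x
  (n 19 21 x x x (n 14 17 x x x (n 18 20 x x (n 17 20 x x (n 14 18 x x x (n 17 19 (n 16 18 x (n
  15 17 x x x (n 13 15 x x (n 14 16 x x x x) x)) x x) x x x)) x) x))) (n 19 21 x x (n 14 17 x x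
  (n 18 20 x x x (n 17 20 x x x (n 14 18 x x (n 17 19 (n 16 18 x (n 15 17 x x (n 13 15 x x x (n
  14 16 x x x x)) x) x x) x x x) x))) x) x)) x x) x x) x x) x x)) x (n 11 13 x (n 12 15 x x x (n
  12 14 x x x (n 12 18 x x x (n 12 19 x x x (n 16 20 x (n 19 21 x x (n 14 17 x x (n 18 20 x (n 17
  20 x (n 14 18 x x (n 17 19 (n 16 18 x x x (n 15 17 x x (n 13 15 x (n 14 16 x x x x) x x) x)) x
  x x) x) x x) x x) x) x) (n 19 21 x (n 14 17 x (n 18 20 x x (n 17 20 x x (n 14 18 x (n 17 19 (n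
  16 18 x x x (n 15 17 x (n 13 15 x x (n 14 16 x x x x) x) x x)) x x x) x x) x) x) x x) x x)
  x))))) x x)) (n 2 11 x (n 8 11 x (n 1 11 x (n 1 5 x x (n 3 9 x x x (n 1 4 x x (n 0 2 x x x (n 1
  3 x x (n 8 10 x x (n 6 9 x x x (n 7 9 x x x (n 3 7 x (n 6 8 x x (n 5 7 x (n 4 6 x x x (n 2 4 (n
  3 5 x (n 4 7 x x x x) x x) x x x)) x x) x) x x))) x) x)) x)) (n 3 9 x x (n 1 4 x x x (n 0 2 x x
  (n 1 3 x x x (n 8 10 x x x (n 6 9 x x (n 7 9 x x (n 3 7 x (n 6 8 x x x (n 5 7 x (n 4 6 x x (n 2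
  4 (n 3 5 x (n 4 7 x x x x) x x) x x x) x) x x)) x x) x) x))) x)) x)) x x) x x) x x)) x (n 10 13
  x (n 2 11 x x x (n 8 11 x x x (n 1 11 x x x (n 1 5 x (n 3 9 x x (n 1 4 x (n 0 2 x x (n 1 3 x (n
  8 10 x (n 6 9 x x (n 7 9 x x (n 3 7 x x x (n 6 8 x (n 5 7 x x x (n 4 6 x x (n 2 4 (n 3 5 x x x
  (n 4 7 x x x x)) x x x) x)) x x)) x) x) x x) x x) x) x x) x) (n 3 9 x (n 1 4 x x (n 0 2 x (n 1
  3 x x (n 8 10 x x (n 6 9 x (n 7 9 x (n 3 7 x x x (n 6 8 x x (n 5 7 x x x (n 4 6 x (n 2 4 (n 3 5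
  x x x (n 4 7 x x x x)) x x x) x x)) x)) x x) x x) x) x) x x) x) x x) x)))) (n 12 20 x (n 11 13
  x x x (n 12 15 x (n 12 14 x (n 12 18 x (n 12 19 x (n 16 20 x x (n 19 21 x x x (n 14 17 x x x (n
  18 20 x x (n 17 20 x x (n 14 18 x x x (n 17 19 (n 16 18 x (n 15 17 x x x (n 13 15 x x (n 14 16
  x x x x) x)) x x) x x x)) x) x))) (n 19 21 x x (n 14 17 x x (n 18 20 x x x (n 17 20 x x x (n 14
  18 x x (n 17 19 (n 16 18 x (n 15 17 x x (n 13 15 x x x (n 14 16 x x x x)) x) x x) x x x) x)))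
  x) x)) x x) x x) x x) x x)) x (n 11 13 x (n 12 15 x x x (n 12 14 x x x (n 12 18 x x x (n 12 19
  x x x (n 16 20 x (n 19 21 x x (n 14 17 x x (n 18 20 x (n 17 20 x (n 14 18 x x (n 17 19 (n 16 18
  x x x (n 15 17 x x (n 13 15 x (n 14 16 x x x x) x x) x)) x x x) x) x x) x x) x) x) (n 19 21 x
  (n 14 17 x (n 18 20 x x (n 17 20 x x (n 14 18 x (n 17 19 (n 16 18 x x x (n 15 17 x (n 13 15 x x
  (n 14 16 x x x x) x) x x)) x x x) x x) x) x) x x) x x) x))))) x x)) x)) (n 9 11 x (n 10 13 x x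
  (n 2 11 x (n 8 11 x (n 1 11 x (n 1 5 x x (n 3 9 x x x (n 1 4 x x (n 0 2 x x x (n 1 3 x x (n 8
  10 x x (n 6 9 x x x (n 7 9 x x x (n 3 7 x (n 6 8 x x (n 5 7 x (n 4 6 x x x (n 2 4 (n 3 5 x (n 4
  7 x x x x) x x) x x x)) x x) x) x x))) x) x)) x)) (n 3 9 x x (n 1 4 x x x (n 0 2 x x (n 1 3 x x
  x (n 8 10 x x x (n 6 9 x x (n 7 9 x x (n 3 7 x (n 6 8 x x x (n 5 7 x (n 4 6 x x (n 2 4 (n 3 5 x
  (n 4 7 x x x x) x x) x x x) x) x x)) x x) x) x))) x)) x)) x x) x x) x x) (n 12 20 x (n 11 13 x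
  x (n 12 15 x (n 12 14 x (n 12 18 x (n 12 19 x (n 16 20 x x (n 19 21 x x x (n 14 17 x x x (n 18
  20 x x (n 17 20 x x (n 14 18 x x x (n 17 19 (n 16 18 x (n 15 17 x x x (n 13 15 x x (n 14 16 x x
  x x) x)) x x) x x x)) x) x))) (n 19 21 x x (n 14 17 x x (n 18 20 x x x (n 17 20 x x x (n 14 18
  x x (n 17 19 (n 16 18 x (n 15 17 x x (n 13 15 x x x (n 14 16 x x x x)) x) x x) x x x) x))) x)
  x)) x x) x x) x x) x x) x) (n 11 13 x (n 12 15 x x (n 12 14 x x (n 12 18 x x (n 12 19 x x (n 16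
  20 x (n 19 21 x x x (n 14 17 x x x (n 18 20 x (n 17 20 x (n 14 18 x x x (n 17 19 (n 16 18 x x
  (n 15 17 x x x (n 13 15 x (n 14 16 x x x x) x x)) x) x x x)) x x) x x))) x (n 19 21 x (n 14 17
  x (n 18 20 x x x (n 17 20 x x x (n 14 18 x (n 17 19 (n 16 18 x x (n 15 17 x (n 13 15 x x x (n
  14 16 x x x x)) x x) x) x x x) x x))) x x) x x)) x) x) x) x) x x) x)) (n 10 13 x (n 2 11 x x (n
  8 11 x x (n 1 11 x x (n 1 5 x (n 3 9 x x x (n 1 4 x (n 0 2 x x x (n 1 3 x (n 8 10 x (n 6 9 x x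
  x (n 7 9 x x x (n 3 7 x x (n 6 8 x (n 5 7 x x (n 4 6 x x x (n 2 4 (n 3 5 x x (n 4 7 x x x x) x)
  x x x)) x) x x) x))) x x) x x)) x x)) x (n 3 9 x (n 1 4 x x x (n 0 2 x (n 1 3 x x x (n 8 10 x x
  x (n 6 9 x (n 7 9 x (n 3 7 x x (n 6 8 x x x (n 5 7 x x (n 4 6 x (n 2 4 (n 3 5 x x (n 4 7 x x x
  x) x) x x x) x x) x)) x) x x) x x))) x x)) x x)) x) x) x) x (n 12 20 x (n 11 13 x x (n 12 15 x
  (n 12 14 x (n 12 18 x (n 12 19 x (n 16 20 x x (n 19 21 x x x (n 14 17 x x x (n 18 20 x x (n 17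
  20 x x (n 14 18 x x x (n 17 19 (n 16 18 x (n 15 17 x x x (n 13 15 x x (n 14 16 x x x x) x)) x
  x) x x x)) x) x))) (n 19 21 x x (n 14 17 x x (n 18 20 x x x (n 17 20 x x x (n 14 18 x x (n 17
  19 (n 16 18 x (n 15 17 x x (n 13 15 x x x (n 14 16 x x x x)) x) x x) x x x) x))) x) x)) x x) x
  x) x x) x x) x) (n 11 13 x (n 12 15 x x (n 12 14 x x (n 12 18 x x (n 12 19 x x (n 16 20 x (n 19
  21 x x x (n 14 17 x x x (n 18 20 x (n 17 20 x (n 14 18 x x x (n 17 19 (n 16 18 x x (n 15 17 x x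
  x (n 13 15 x (n 14 16 x x x x) x x)) x) x x x)) x x) x x))) x (n 19 21 x (n 14 17 x (n 18 20 x
  x x (n 17 20 x x x (n 14 18 x (n 17 19 (n 16 18 x x (n 15 17 x (n 13 15 x x x (n 14 16 x x x
  x)) x x) x) x x x) x x))) x x) x x)) x) x) x) x) x x) x)) x)

set_option maxRecDepth 100000 in
theorem tree_ok : chk tree [] [] [] [] = true := by decide +kernel

/-- the apex chords cannot all have the colour `α` -/
theorem gadget (col : ℕ → ℕ → Fin 4) (α : Fin 4)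
    (hc : ∀ a b c d : ℕ, (a, b) ∈ L → (c, d) ∈ L → a < c → c < b → b < d → col a b ≠ col c d)
    (hp : ∀ a b v : ℕ, (a, b) ∈ L → v ∈ pe → a < v → v < b → col a b ≠ α) : False := by
  refine chk_sound (fun a b => Equiv.swap α 0 (col a b)) ?_ ?_ tree [] [] [] [] tree_ok
    (by simp) (by simp) (by simp) (by simp)
  · intro a b c d h1 h2 h3 h4 h5 h
    exact hc a b c d h1 h2 h3 h4 h5 ((Equiv.swap α 0).injective h)
  · intro a b v h1 h2 h3 h4 h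
    have h5 : Equiv.swap α 0 (col a b) = Equiv.swap α 0 α := by
      rw [Equiv.swap_apply_left]
      exact h
    exact hp a b v h1 h2 h3 h4 ((Equiv.swap α 0).injective h5)

end Pool.Agent.Lib.MP_cd28a7_co.W
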