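import Pool.Agent.Lib.MP_cd28a7_co.W.Pages
import Pool.Agent.Lib.MP_cd28a7_co.W.Five

/-!
MP_cd28a7_co, witnessing layouts: disjoint copies of `T`.
-/

set_option autoImplicit false

namespace Pool.Agent.Lib.MP_cd28a7_co.W

theorem TA_irrefl (a : ℕ) : ¬ TA a a := by
  rintro (h | h)
  · have := nb_lt h
    omega
  · have := nb_lt h
    omega

/-- `n / 345` disjoint copies of `T` and isolated vertices -/
def GT (n : ℕ) : SimpleGraph (Fin n) where
  Adj a b := (a : ℕ) / 345 = (b : ℕ) / 345 ∧ (a : ℕ) / 345 < n / 345 ∧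
    TA ((a : ℕ) % 345) ((b : ℕ) % 345)
  symm := ⟨fun a b h => ⟨h.1.symm, by have h1 := h.1; have h2 := h.2.1; omega, TA_symm h.2.2⟩⟩
  loopless := ⟨fun a h => TA_irrefl _ h.2.2⟩

theorem GT_adj {n : ℕ} {a b : Fin n} : (GT n).Adj a b ↔ ((a : ℕ) / 345 = (b : ℕ) / 345 ∧
    (a : ℕ) / 345 < n / 345 ∧ TA ((a : ℕ) % 345) ((b : ℕ) % 345)) := Iff.rfl

/-- the natural order has no three pairwise crossing edges -/
theorem GT_nat {n : ℕ} (a b c d e g : Fin n) (t1 : (GT n).Adj a b) (t2 : (GT n).Adj c d)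
    (t3 : (GT n).Adj e g) (h1 : a < c) (h2 : c < e) (h3 : e < b) (h4 : b < d) (h5 : d < g) :
    False := by
  obtain ⟨x1, -, y1⟩ := t1
  obtain ⟨x2, -, y2⟩ := t2
  obtain ⟨x3, -, y3⟩ := t3
  rw [Fin.lt_def] at h1 h2 h3 h4 h5
  have n1 : ((a : ℕ) % 345) < (c : ℕ) % 345 := by omega
  have n2 : ((c : ℕ) % 345) < (e : ℕ) % 345 := by omega
  have n3 : ((e : ℕ) % 345) < (b : ℕ) % 345 := by omega
  have n4 : ((b : ℕ) % 345) < (d : ℕ) % 345 := by omega
  have n5 : ((d : ℕ) % 345) < (g : ℕ) % 345 := by omega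
  have up : ∀ x y : ℕ, TA x y → x < y → y ∈ nb x := by
    intro x y h hxy
    rcases h with h | h
    · exact h
    · have := nb_lt h
      omega
  exact nat_tf _ _ _ _ _ _ n1 n2 n3 n4 n5 (up _ _ y1 (by omega)) (up _ _ y2 (by omega))
    (up _ _ y3 (by omega))

/-- five pages in the natural order -/
theorem GT_five (n : ℕ) : ∃ p : Fin n → Fin n → Fin 5, ∀ a b c d : Fin n, (GT n).Adj a b →
    (GT n).Adj c d → a < c → c < b → b < d → p a b ≠ p c d := by
  obtain ⟨p, hp⟩ := five_pages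
  refine ⟨fun a b => p ((a : ℕ) % 345) ((b : ℕ) % 345), ?_⟩
  intro a b c d t1 t2 h1 h2 h3
  obtain ⟨x1, -, y1⟩ := t1
  obtain ⟨x2, -, y2⟩ := t2
  rw [Fin.lt_def] at h1 h2 h3
  exact hp _ _ _ _ y1 y2 (by omega) (by omega) (by omega)

/-- the order with four pages -/
def posG (v : ℕ) : ℕ := 345 * (v / 345) + posF (v % 345)

theorem posG_div (v : ℕ) : posG v / 345 = v / 345 ∧ posG v % 345 = posF (v % 345) := by
  have := (posF_spec (v % 345) (Nat.mod_lt _ (by norm_num))).1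
  unfold posG
  omega

theorem posG_inj {u v : ℕ} (h : posG u = posG v) : u = v := by
  have h1 := posG_div u
  have h2 := posG_div v
  rw [h] at h1
  have h3 : u % 345 = v % 345 := posF_inj _ _ (Nat.mod_lt _ (by norm_num))
    (Nat.mod_lt _ (by norm_num)) (by rw [← h1.2, ← h2.2])
  have h4 : u / 345 = v / 345 := by rw [← h1.1, ← h2.1]
  omega

theorem GT_four (n : ℕ) : ∃ p : Fin n → Fin n → Fin 4, ∀ a b c d : Fin n, (GT n).Adj a b →
    (GT n).Adj c d → posG a < posG c → posG c < posG b → posG b < posG d → p a b ≠ p c d := by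
  obtain ⟨p, hp⟩ := four_pages
  refine ⟨fun a b => p ((a : ℕ) % 345) ((b : ℕ) % 345), ?_⟩
  intro a b c d t1 t2 h1 h2 h3
  obtain ⟨x1, -, y1⟩ := t1
  obtain ⟨x2, -, y2⟩ := t2
  have ea := posG_div a
  have eb := posG_div b
  have ec := posG_div c
  have ed := posG_div d
  rw [← ea.1, ← eb.1] at x1
  rw [← ec.1, ← ed.1] at x2
  refine hp _ _ _ _ y1 y2 ?_ ?_ ?_
  · rw [← ea.2, ← ec.2]; omega
  · rw [← ec.2, ← eb.2]; omega
  · rw [← eb.2, ← ed.2]; omega

/-- In every order with four pages every copy of `T` has three pairwise crossing edges. -/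
theorem copy_triple {n : ℕ} (f : Fin n → ℕ) (hf : Function.Injective f)
    (p : Fin n → Fin n → Fin 4) (hp : ∀ a b c d : Fin n, (GT n).Adj a b → (GT n).Adj c d →
      f a < f c → f c < f b → f b < f d → p a b ≠ p c d)
    (j : ℕ) (hj : j < n / 345) : ∃ t : Fin 6 → Fin n, (∀ k, (t k : ℕ) / 345 = j) ∧
      (GT n).Adj (t 0) (t 3) ∧ (GT n).Adj (t 1) (t 4) ∧ (GT n).Adj (t 2) (t 5) ∧
      f (t 0) < f (t 1) ∧ f (t 1) < f (t 2) ∧ f (t 2) < f (t 3) ∧ f (t 3) < f (t 4) ∧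
      f (t 4) < f (t 5) := by
  by_contra hcon
  have hn : 0 < n := by omega
  let V : ℕ → Fin n := fun u => ⟨min (345 * j + u) (n - 1), by omega⟩
  have hV : ∀ u < 345, ((V u : Fin n) : ℕ) = 345 * j + u := by
    intro u hu
    show min (345 * j + u) (n - 1) = 345 * j + u
    omega
  have hadj : ∀ a b : ℕ, TA a b → (GT n).Adj (V a) (V b) := by
    intro a b h
    have l := TA_lt h
    rw [GT_adj, hV a l.1, hV b l.2]
    refine ⟨by omega, by omega, ?_⟩
    rw [show (345 * j + a) % 345 = a by omega, show (345 * j + b) % 345 = b by omega]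
    exact h
  refine no_pages (fun u => f (V u)) ?_ ?_ (fun a b => p (V a) (V b)) ?_
  · intro u hu v hv h
    have h1 := hf h
    have h2 : ((V u : Fin n) : ℕ) = (V v : Fin n) := by rw [h1]
    rw [hV u hu, hV v hv] at h2
    omega
  · intro a b c d e g t1 t2 t3 h1 h2 h3 h4 h5
    have l1 := TA_lt t1
    have l2 := TA_lt t2
    have l3 := TA_lt t3
    apply hcon
    refine ⟨![V a, V c, V e, V b, V d, V g], ?_, hadj _ _ t1, hadj _ _ t2, hadj _ _ t3, h1, h2, h3,
      h4, h5⟩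
    intro k
    fin_cases k
    · show ((V a : Fin n) : ℕ) / 345 = j
      rw [hV a l1.1]; omega
    · show ((V c : Fin n) : ℕ) / 345 = j
      rw [hV c l2.1]; omega
    · show ((V e : Fin n) : ℕ) / 345 = j
      rw [hV e l3.1]; omega
    · show ((V b : Fin n) : ℕ) / 345 = j
      rw [hV b l1.2]; omega
    · show ((V d : Fin n) : ℕ) / 345 = j
      rw [hV d l2.2]; omega
    · show ((V g : Fin n) : ℕ) / 345 = j
      rw [hV g l3.2]; omega
  · intro a b c d t1 t2 h1 h2 h3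
    exact hp _ _ _ _ (hadj _ _ t1) (hadj _ _ t2) h1 h2 h3

theorem many_triples {n : ℕ} (f : Fin n → ℕ) (hf : Function.Injective f)
    (p : Fin n → Fin n → Fin 4) (hp : ∀ a b c d : Fin n, (GT n).Adj a b → (GT n).Adj c d →
      f a < f c → f c < f b → f b < f d → p a b ≠ p c d) :
    ∃ t : Fin (n / 345) → Fin 6 → Fin n, (∀ i j k l, t i k = t j l → i = j ∧ k = l) ∧
      ∀ i, (GT n).Adj (t i 0) (t i 3) ∧ (GT n).Adj (t i 1) (t i 4) ∧ (GT n).Adj (t i 2) (t i 5) ∧
        f (t i 0) < f (t i 1) ∧ f (t i 1) < f (t i 2) ∧ f (t i 2) < f (t i 3) ∧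
        f (t i 3) < f (t i 4) ∧ f (t i 4) < f (t i 5) := by
  have key := fun j : Fin (n / 345) => copy_triple f hf p hp j j.2
  choose t ht1 ht2 using key
  refine ⟨t, ?_, ht2⟩
  intro i j k l h
  have hij : i = j := by
    apply Fin.ext
    rw [← ht1 i k, ← ht1 j l, h]
  subst hij
  refine ⟨rfl, ?_⟩
  obtain ⟨-, -, -, h1, h2, h3, h4, h5⟩ := ht2 i
  have hk : f (t i k) = f (t i l) := by rw [h]
  fin_cases k <;> fin_cases l <;> first | rfl | (exfalso; simp at hk; omega)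

end Pool.Agent.Lib.MP_cd28a7_co.W
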