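import Pool.Agent.Lib.MP_cd28a7_co.W.Tri

/-!
MP_cd28a7_co, witnessing layouts: every layout of `T` without three pairwise crossing edges is the
natural one up to rotation, reflection and exchanges inside the pairs `3 i, 3 i + 1`.
-/

set_option autoImplicit false

namespace Pool.Agent.Lib.MP_cd28a7_co.W

/-- adjacency in `T` -/
def TA (u v : ℕ) : Prop := v ∈ nb u ∨ u ∈ nb v

theorem TA_symm {u v : ℕ} (h : TA u v) : TA v u := Or.symm h

theorem lens : rowsT.length = nbT.length ∧ nbT.length = 345 := by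
  obtain ⟨h1, h2, -⟩ := rowsOK_sound rowsT nbT 0 rows_ok
  exact ⟨h1, by omega⟩

theorem row_of (u : ℕ) (hu : u < 345) : ∃ r, rowsT[u]? = some r ∧ nbT[u]? = some (nb u) ∧
    rowOK u (nb u) r = true := by
  obtain ⟨h1, h2, h3⟩ := rowsOK_sound rowsT nbT 0 rows_ok
  have hl : u < nbT.length := by omega
  have h4 : nbT[u]? = some (nb u) := by
    unfold nb
    rw [List.getD_eq_getElem?_getD, List.getElem?_eq_getElem hl]
    rfl
  obtain ⟨r, e1, e2⟩ := h3 u (nb u) h4
  exact ⟨r, e1, h4, by simpa using e2⟩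

theorem nb_big (u : ℕ) (hu : 345 ≤ u) : nb u = [] := by
  have := lens.2
  unfold nb
  rw [List.getD_eq_getElem?_getD, List.getElem?_eq_none (by omega)]
  rfl

theorem nb_lt {u v : ℕ} (h : v ∈ nb u) : u < v ∧ v < 345 := by
  by_cases hu : u < 345
  · obtain ⟨r, -, -, h3⟩ := row_of u hu
    rw [rowOK, Bool.and_eq_true, Bool.and_eq_true] at h3
    exact (asc_sound _ _ h3.1.1).2 v h
  · rw [nb_big u (by omega)] at h
    simp at h

theorem nb_nodup (u : ℕ) : (nb u).Nodup := by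
  by_cases hu : u < 345
  · obtain ⟨r, -, -, h3⟩ := row_of u hu
    rw [rowOK, Bool.and_eq_true, Bool.and_eq_true] at h3
    exact (asc_sound _ _ h3.1.1).1
  · rw [nb_big u (by omega)]
    exact List.nodup_nil

/-- the natural order has no three pairwise crossing edges -/
theorem nat_tf (a b c d e f : ℕ) (hab : a < b) (hbc : b < c) (hcd : c < d) (hde : d < e)
    (hef : e < f) (h1 : d ∈ nb a) (h2 : e ∈ nb b) (h3 : f ∈ nb c) : False := by
  have hf := (nb_lt h3).2
  obtain ⟨ra, -, ea, -⟩ := row_of a (by omega)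
  obtain ⟨rb, rb1, -, rb3⟩ := row_of b (by omega)
  obtain ⟨rc, -, ec, -⟩ := row_of c (by omega)
  rw [rowOK, Bool.and_eq_true, Bool.and_eq_true] at rb3
  have hm : rb = mask (nb b) := Nat.eq_of_beq_eq_true rb3.1.2
  refine outer_sound rowsT nbT 0 outer_ok lens.1 a c b (nb a) (nb c) rb ea ec rb1 hab hbc d f e
    h1 h3 (by omega) hde hef ?_
  rw [hm]
  exact mask_bit h2

/-- the neighbours of a separator -/
theorem sep_nb (i y : ℕ) (hi : i < 115) (h : TA (3 * i + 2) y) :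
    y = 3 * i ∨ y = 3 * i + 1 ∨ y = 3 * ((i + 1) % 115) ∨ y = 3 * ((i + 1) % 115) + 1 := by
  rcases h with h | h
  · obtain ⟨r, -, -, h3⟩ := row_of (3 * i + 2) (by omega)
    rw [rowOK, Bool.and_eq_true, List.all_eq_true] at h3
    have h4 := h3.2 y h
    have e1 : (3 * i + 2) % 3 = 2 := by omega
    have e2 : (3 * i + 2) / 3 = i := by omega
    rw [e1, e2] at h4
    simp only [Bool.and_eq_true, Bool.or_eq_true, Bool.not_eq_true'] at h4
    rcases h4.1 with (((h5 | h5) | h5) | h5) | h5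
    · simp at h5
    · exact Or.inr (Or.inr (Or.inl (Nat.eq_of_beq_eq_true h5)))
    · exact Or.inr (Or.inr (Or.inr (Nat.eq_of_beq_eq_true h5)))
    · exact Or.inl (Nat.eq_of_beq_eq_true h5)
    · exact Or.inr (Or.inl (Nat.eq_of_beq_eq_true h5))
  · have hy : y < 345 := by
      have := nb_lt h
      omega
    obtain ⟨r, -, -, h3⟩ := row_of y hy
    rw [rowOK, Bool.and_eq_true, List.all_eq_true] at h3
    have h4 := h3.2 (3 * i + 2) h
    have e1 : (3 * i + 2) % 3 = 2 := by omega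
    have e2 : (3 * i + 2) / 3 = i := by omega
    rw [e1, e2] at h4
    simp only [Bool.and_eq_true, Bool.or_eq_true, Bool.not_eq_true'] at h4
    rcases h4.2 with (((h5 | h5) | h5) | h5) | h5
    · simp at h5
    · exact Or.inr (Or.inr (Or.inl (Nat.eq_of_beq_eq_true h5)))
    · exact Or.inr (Or.inr (Or.inr (Nat.eq_of_beq_eq_true h5)))
    · exact Or.inl (Nat.eq_of_beq_eq_true h5)
    · exact Or.inr (Or.inl (Nat.eq_of_beq_eq_true h5))

/-- the edges of `T` -/
@[irreducible] def E0 : Finset (Σ _ : ℕ, ℕ) := (Finset.range 345).sigma fun u => (nb u).toFinset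

theorem E0_mem (p : Σ _ : ℕ, ℕ) (hp : p ∈ E0) : p.1 < 345 ∧ p.2 ∈ nb p.1 := by
  unfold E0 at hp
  rw [Finset.mem_sigma, Finset.mem_range, List.mem_toFinset] at hp
  exact hp

set_option maxRecDepth 100000 in
theorem sum_len : ∑ u ∈ Finset.range 345, (nb u).length = 1370 := by decide +kernel

theorem E0_card : E0.card = 1370 := by
  unfold E0
  rw [Finset.card_sigma, ← sum_len]
  apply Finset.sum_congr rfl
  intro u _
  exact List.toFinset_card_of_nodup (nb_nodup u)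

section

variable (r : ℕ → ℕ) (hr : ∀ u < 345, r u < 345) (hinj : ∀ u < 345, ∀ v < 345, r u = r v → u = v)
  (hq : ∀ a b c d e g : ℕ, TA a b → TA c d → TA e g → r a < r c → r c < r e → r e < r b →
    r b < r d → r d < r g → False)

include hr hinj hq

theorem short_adj (u v : ℕ) (hu : u < 345) (hv : v < 345) (huv : r u < r v)
    (hs : r v ≤ r u + 2 ∨ r u + 345 ≤ r v + 2) : TA u v := by
  set F : Finset (ℕ × ℕ) := E0.image fun p => (min (r p.1) (r p.2), max (r p.1) (r p.2)) with hF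
  have hmem := E0_mem
  have hcard : F.card = 1370 := by
    rw [hF, Finset.card_image_of_injOn, E0_card]
    rintro ⟨x, y⟩ hx ⟨x', y'⟩ hx' heq
    have h1 := hmem _ hx
    have h2 := hmem _ hx'
    simp only at h1 h2
    have l1 := nb_lt h1.2
    have l2 := nb_lt h2.2
    simp only [Prod.mk.injEq] at heq
    have i1 := hinj x (by omega) x' (by omega)
    have i2 := hinj y (by omega) y' (by omega)
    have i3 := hinj x (by omega) y' (by omega)
    have i4 := hinj y (by omega) x' (by omega)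
    have : (r x = r x' ∧ r y = r y') ∨ (r x = r y' ∧ r y = r x') := by omega
    rcases this with ⟨e1, e2⟩ | ⟨e1, e2⟩
    · rw [i1 e1, i2 e2]
    · have := i3 e1
      have := i4 e2
      omega
  have hFmem : ∀ x y : ℕ, (x, y) ∈ F → ∃ a b : ℕ, a < 345 ∧ b < 345 ∧ TA a b ∧ r a = x ∧
      r b = y ∧ x < y ∧ y < 345 := by
    intro x y hxy
    simp only [hF, Finset.mem_image, Prod.mk.injEq] at hxy
    obtain ⟨⟨a, b⟩, hp, e1, e2⟩ := hxy
    have h1 := hmem _ hp
    simp only at h1 e1 e2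
    have l1 := nb_lt h1.2
    have ra := hr a (by omega)
    have rb := hr b (by omega)
    have hne : r a ≠ r b := fun h => by
      have := hinj a (by omega) b (by omega) h
      omega
    rcases Nat.lt_or_gt_of_ne hne with h | h
    · exact ⟨a, b, by omega, by omega, Or.inl h1.2, by omega, by omega, by omega, by omega⟩
    · exact ⟨b, a, by omega, by omega, Or.inr h1.2, by omega, by omega, by omega, by omega⟩
  have hTF : TF F := by
    intro p1 p2 p3 p4 p5 p6 h12 h23 h34 h45 h56 m1 m2 m3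
    obtain ⟨a, b, -, -, t1, e1, e2, -, -⟩ := hFmem _ _ m1
    obtain ⟨c, d, -, -, t2, e3, e4, -, -⟩ := hFmem _ _ m2
    obtain ⟨e, g, -, -, t3, e5, e6, -, -⟩ := hFmem _ _ m3
    exact hq a b c d e g t1 t2 t3 (by omega) (by omega) (by omega) (by omega) (by omega)
  have hmemF := short_mem 345 (by norm_num) F (by
    rintro ⟨x, y⟩ hxy
    obtain ⟨a, b, -, -, -, -, -, h1, h2⟩ := hFmem x y hxy
    exact ⟨h1, h2⟩) hTF (by omega) (r u) (r v) huv (hr v hv) hs
  obtain ⟨a, b, ha, hb, t, e1, e2, -, -⟩ := hFmem _ _ hmemF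
  have := hinj a ha u hu e1
  have := hinj b hb v hv e2
  subst_vars
  exact t

omit hq in
theorem surj (x : ℕ) (hx : x < 345) : ∃ u < 345, r u = x := by
  have h1 : (Finset.range 345).image r = Finset.range 345 := by
    apply Finset.eq_of_subset_of_card_le
    · intro y hy
      simp only [Finset.mem_image, Finset.mem_range] at hy ⊢
      obtain ⟨u, hu, rfl⟩ := hy
      exact hr u hu
    · rw [Finset.card_image_of_injOn]
      intro u hu v hv h
      exact hinj u (by simpa using hu) v (by simpa using hv) h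
  have h2 : x ∈ (Finset.range 345).image r := by
    rw [h1]
    simpa using hx
  simp only [Finset.mem_image, Finset.mem_range] at h2
  exact h2

/-- neighbours of a separator sit at distance at most two -/
theorem disp (i y : ℕ) (hi : i < 115)
    (hy : y = 3 * i ∨ y = 3 * i + 1 ∨ y = 3 * ((i + 1) % 115) ∨ y = 3 * ((i + 1) % 115) + 1) :
    ∃ d : ℤ, (d = 1 ∨ d = 2 ∨ d = -1 ∨ d = -2) ∧ ((r y : ℤ) - r (3 * i + 2) - d) % 345 = 0 := by
  have hw : 3 * i + 2 < 345 := by omega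
  have hrw := hr _ hw
  obtain ⟨u1, k1, e1⟩ := surj r hr hinj ((r (3 * i + 2) + 1) % 345) (by omega)
  obtain ⟨u2, k2, e2⟩ := surj r hr hinj ((r (3 * i + 2) + 2) % 345) (by omega)
  obtain ⟨u3, k3, e3⟩ := surj r hr hinj ((r (3 * i + 2) + 344) % 345) (by omega)
  obtain ⟨u4, k4, e4⟩ := surj r hr hinj ((r (3 * i + 2) + 343) % 345) (by omega)
  have adj : ∀ u, u < 345 → (r u = (r (3 * i + 2) + 1) % 345 ∨ r u = (r (3 * i + 2) + 2) % 345 ∨
      r u = (r (3 * i + 2) + 344) % 345 ∨ r u = (r (3 * i + 2) + 343) % 345) →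
      TA (3 * i + 2) u := by
    intro u hu h
    have hru := hr u hu
    rcases Nat.lt_or_ge (r (3 * i + 2)) (r u) with hlt | hge
    · exact short_adj r hr hinj hq _ _ hw hu hlt (by omega)
    · exact TA_symm (short_adj r hr hinj hq _ _ hu hw (by omega) (by omega))
  have a1 := sep_nb i u1 hi (adj u1 k1 (by omega))
  have a2 := sep_nb i u2 hi (adj u2 k2 (by omega))
  have a3 := sep_nb i u3 hi (adj u3 k3 (by omega))
  have a4 := sep_nb i u4 hi (adj u4 k4 (by omega))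
  have n12 : u1 ≠ u2 := by rintro rfl; omega
  have n13 : u1 ≠ u3 := by rintro rfl; omega
  have n14 : u1 ≠ u4 := by rintro rfl; omega
  have n23 : u2 ≠ u3 := by rintro rfl; omega
  have n24 : u2 ≠ u4 := by rintro rfl; omega
  have n34 : u3 ≠ u4 := by rintro rfl; omega
  have hset : ({u1, u2, u3, u4} : Finset ℕ) =
      {3 * i, 3 * i + 1, 3 * ((i + 1) % 115), 3 * ((i + 1) % 115) + 1} := by
    apply Finset.eq_of_subset_of_card_le
    · intro x hx
      simp only [Finset.mem_insert, Finset.mem_singleton] at hx ⊢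
      rcases hx with rfl | rfl | rfl | rfl <;> assumption
    · rw [show ({u1, u2, u3, u4} : Finset ℕ).card = 4 by
        rw [Finset.card_insert_of_notMem (by simp [n12, n13, n14]),
          Finset.card_insert_of_notMem (by simp [n23, n24]),
          Finset.card_insert_of_notMem (by simp [n34]), Finset.card_singleton]]
      exact Finset.card_le_four
  have hyu : y = u1 ∨ y = u2 ∨ y = u3 ∨ y = u4 := by
    have : y ∈ ({u1, u2, u3, u4} : Finset ℕ) := by
      rw [hset]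
      simp only [Finset.mem_insert, Finset.mem_singleton]
      exact hy
    simpa using this
  rcases hyu with rfl | rfl | rfl | rfl
  · exact ⟨1, by simp, by omega⟩
  · exact ⟨2, by simp, by omega⟩
  · exact ⟨-1, by simp, by omega⟩
  · exact ⟨-2, by simp, by omega⟩

omit hr hinj hq in
theorem small (a b a2 b2 : ℤ) (ha : a = 1 ∨ a = 2 ∨ a = -1 ∨ a = -2)
    (hb : b = 1 ∨ b = 2 ∨ b = -1 ∨ b = -2) (ha2 : a2 = 1 ∨ a2 = 2 ∨ a2 = -1 ∨ a2 = -2)
    (hb2 : b2 = 1 ∨ b2 = 2 ∨ b2 = -1 ∨ b2 = -2) (hD : a - a2 = b - b2) (hab : a ≠ b)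
    (hD3 : a - a2 ≤ -3 ∨ 3 ≤ a - a2) :
    (a - a2 = 3 ∧ ((a = 1 ∧ b = 2) ∨ (a = 2 ∧ b = 1))) ∨
      (a - a2 = -3 ∧ ((a = -1 ∧ b = -2) ∨ (a = -2 ∧ b = -1))) := by
  rcases ha with rfl | rfl | rfl | rfl <;> rcases hb with rfl | rfl | rfl | rfl <;> omega

omit hr hinj hq in
theorem far (x2 x3 x5 : ℕ) (a a2 : ℤ) (h2 : x2 < 345) (h5 : x5 < 345) (n25 : x2 ≠ x5)
    (ha' : ((x3 : ℤ) - x2 - a) % 345 = 0) (ha2' : ((x3 : ℤ) - x5 - a2) % 345 = 0)
    (hfar : ¬ (x2 < x5 ∧ (x5 ≤ x2 + 2 ∨ x2 + 345 ≤ x5 + 2)))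
    (hfar' : ¬ (x5 < x2 ∧ (x2 ≤ x5 + 2 ∨ x5 + 345 ≤ x2 + 2))) :
    a - a2 ≤ -3 ∨ 3 ≤ a - a2 := by
  by_contra hcon
  push Not at hcon
  obtain ⟨k, hk⟩ : ∃ k : ℤ, (x5 : ℤ) - x2 = a - a2 + 345 * k := by
    refine ⟨((x3 : ℤ) - x2 - a) / 345 - ((x3 : ℤ) - x5 - a2) / 345, ?_⟩
    omega
  have hk1 : k ≤ 1 := by omega
  have hk2 : -1 ≤ k := by omega
  rcases Nat.lt_or_gt_of_ne n25 with h | h
  · have h6 : ¬ (x5 ≤ x2 + 2) := fun h' => hfar ⟨h, Or.inl h'⟩
    have h7 : ¬ (x2 + 345 ≤ x5 + 2) := fun h' => hfar ⟨h, Or.inr h'⟩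
    clear hfar hfar' ha' ha2'
    omega
  · have h6 : ¬ (x2 ≤ x5 + 2) := fun h' => hfar' ⟨h, Or.inl h'⟩
    have h7 : ¬ (x5 + 345 ≤ x2 + 2) := fun h' => hfar' ⟨h, Or.inr h'⟩
    clear hfar hfar' ha' ha2'
    omega

omit hr hinj hq in
theorem fin (x2 x3 x4 x5 a b a2 s : ℤ) (ha' : (x3 - x2 - a) % 345 = 0)
    (hb' : (x4 - x2 - b) % 345 = 0) (ha2' : (x3 - x5 - a2) % 345 = 0) (hs : a - a2 = 3 * s)
    (h : (a = s ∧ b = 2 * s) ∨ (a = 2 * s ∧ b = s)) :
    (x5 - x2 - 3 * s) % 345 = 0 ∧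
    (((x3 - x2 - s) % 345 = 0 ∧ (x4 - x2 - 2 * s) % 345 = 0) ∨
     ((x3 - x2 - 2 * s) % 345 = 0 ∧ (x4 - x2 - s) % 345 = 0)) := by
  refine ⟨by omega, ?_⟩
  rcases h with ⟨rfl, rfl⟩ | ⟨rfl, rfl⟩
  · exact Or.inl ⟨ha', hb'⟩
  · exact Or.inr ⟨ha', hb'⟩

set_option maxHeartbeats 1000000 in
/-- two consecutive separators -/
theorem step (i : ℕ) (hi : i < 114) : ∃ s : ℤ, (s = 1 ∨ s = -1) ∧
    ((r (3 * i + 5) : ℤ) - r (3 * i + 2) - 3 * s) % 345 = 0 ∧
    ((((r (3 * i + 3) : ℤ) - r (3 * i + 2) - s) % 345 = 0 ∧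
      ((r (3 * i + 4) : ℤ) - r (3 * i + 2) - 2 * s) % 345 = 0) ∨
     (((r (3 * i + 3) : ℤ) - r (3 * i + 2) - 2 * s) % 345 = 0 ∧
      ((r (3 * i + 4) : ℤ) - r (3 * i + 2) - s) % 345 = 0)) := by
  have hm : (i + 1) % 115 = i + 1 := Nat.mod_eq_of_lt (by omega)
  obtain ⟨a, ha, ha'⟩ := disp r hr hinj hq i (3 * i + 3) (by omega)
    (by right; right; left; rw [hm]; ring)
  obtain ⟨b, hb, hb'⟩ := disp r hr hinj hq i (3 * i + 4) (by omega)
    (by right; right; right; rw [hm]; ring)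
  obtain ⟨a2, ha2, ha2'⟩ := disp r hr hinj hq (i + 1) (3 * i + 3) (by omega)
    (by left; ring)
  obtain ⟨b2, hb2, hb2'⟩ := disp r hr hinj hq (i + 1) (3 * i + 4) (by omega)
    (by right; left; ring)
  have e5 : 3 * (i + 1) + 2 = 3 * i + 5 := by ring
  rw [e5] at ha2' hb2'
  have h2 := hr (3 * i + 2) (by omega)
  have h3 := hr (3 * i + 3) (by omega)
  have h4 := hr (3 * i + 4) (by omega)
  have h5 := hr (3 * i + 5) (by omega)
  have n34 : r (3 * i + 3) ≠ r (3 * i + 4) := fun h => by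
    have := hinj _ (by omega) _ (by omega) h
    omega
  have n25 : r (3 * i + 2) ≠ r (3 * i + 5) := fun h => by
    have := hinj _ (by omega) _ (by omega) h
    omega
  -- not adjacent
  have hnadj : ¬ TA (3 * i + 2) (3 * i + 5) := by
    intro h
    have := sep_nb i (3 * i + 5) (by omega) h
    rw [hm] at this
    omega
  have hfar : ¬ (r (3 * i + 2) < r (3 * i + 5) ∧ (r (3 * i + 5) ≤ r (3 * i + 2) + 2 ∨
      r (3 * i + 2) + 345 ≤ r (3 * i + 5) + 2)) := by
    rintro ⟨h, h'⟩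
    exact hnadj (short_adj r hr hinj hq _ _ (by omega) (by omega) h h')
  have hfar' : ¬ (r (3 * i + 5) < r (3 * i + 2) ∧ (r (3 * i + 2) ≤ r (3 * i + 5) + 2 ∨
      r (3 * i + 5) + 345 ≤ r (3 * i + 2) + 2)) := by
    rintro ⟨h, h'⟩
    exact hnadj (TA_symm (short_adj r hr hinj hq _ _ (by omega) (by omega) h h'))
  generalize r (3 * i + 2) = x2 at *
  generalize r (3 * i + 3) = x3 at *
  generalize r (3 * i + 4) = x4 at *
  generalize r (3 * i + 5) = x5 at *
  clear hq hinj hr hnadj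
  have hD : a - a2 = b - b2 := by omega
  have hab : a ≠ b := by
    rintro rfl
    omega
  have hD3 : a - a2 ≤ -3 ∨ 3 ≤ a - a2 := by
    clear hb' hb2' hD hab hb hb2 n34
    exact far x2 x3 x5 a a2 h2 h5 n25 ha' ha2' hfar hfar'
  have key := small a b a2 b2 ha hb ha2 hb2 hD hab hD3
  rcases key with ⟨h1, h⟩ | ⟨h1, h⟩
  · exact ⟨1, by simp, fin _ _ _ _ a b a2 1 ha' hb' ha2' (by omega) (by omega)⟩
  · exact ⟨-1, by simp, fin _ _ _ _ a b a2 (-1) ha' hb' ha2' (by omega) (by omega)⟩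

end

end Pool.Agent.Lib.MP_cd28a7_co.W
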