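import Pool.Agent.Lib.MP_cd28a7_co.W.PagesData
import Pool.Agent.Lib.MP_cd28a7_co.W.Rigid

/-!
MP_cd28a7_co, witnessing layouts: kernel check of page assignments.
-/

set_option autoImplicit false

namespace Pool.Agent.Lib.MP_cd28a7_co.W

/-- `ts`: targets of a fixed position, in ascending order; `ls`: rows from position `c` on;
`U`: union of the rows between the fixed position and `c` -/
def walk : List ℕ → List (List ℕ) → ℕ → ℕ → Bool
  | [], _, _, _ => true
  | t :: ts, l :: ls, c, U =>
    if Nat.beq c t then Nat.beq (Nat.shiftRight U (c + 1)) 0 && walk ts ls (c + 1) (Nat.lor U (mask l))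
    else walk (t :: ts) ls (c + 1) (Nat.lor U (mask l))
  | _ :: _, [], _, _ => false

def pg : List (List ℕ) → ℕ → Bool
  | l :: ls, a => walk l ls (a + 1) 0 && pg ls (a + 1)
  | [], _ => true

theorem no_bit {U c x : ℕ} (h : Nat.shiftRight U (c + 1) = 0) (hx : c < x) :
    U.testBit x = false := by
  have h1 : (U >>> (c + 1)).testBit (x - (c + 1)) = false := by
    show (Nat.shiftRight U (c + 1)).testBit (x - (c + 1)) = false
    rw [h]
    simp
  rw [Nat.testBit_shiftRight] at h1
  rw [show c + 1 + (x - (c + 1)) = x by omega] at h1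
  exact h1

theorem lor_bit {U V x : ℕ} (h : (Nat.lor U V).testBit x = false) :
    U.testBit x = false ∧ V.testBit x = false := by
  have h1 : (U ||| V).testBit x = false := h
  rw [Nat.testBit_or, Bool.or_eq_false_iff] at h1
  exact h1

theorem walk_sound : ∀ (ls : List (List ℕ)) (ts : List ℕ) (c U : ℕ), walk ts ls c U = true →
    ∀ t ∈ ts, c ≤ t ∧ (∀ x, t < x → U.testBit x = false) ∧
      ∀ (j : ℕ) (l : List ℕ), ls[j]? = some l → c + j < t → ∀ x ∈ l, x ≤ t := by
  intro ls
  induction ls with
  | nil =>
    intro ts c U h t ht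
    cases ts with
    | nil => simp at ht
    | cons a ts => simp [walk] at h
  | cons l ls ih =>
    intro ts c U h t ht
    cases ts with
    | nil => simp at ht
    | cons a ts =>
      have rest : ∀ t', (c + 1 ≤ t' ∧ (∀ x, t' < x → (Nat.lor U (mask l)).testBit x = false) ∧
          ∀ (j : ℕ) (l' : List ℕ), ls[j]? = some l' → c + 1 + j < t' → ∀ x ∈ l', x ≤ t') →
          c ≤ t' ∧ (∀ x, t' < x → U.testBit x = false) ∧
          ∀ (j : ℕ) (l' : List ℕ), (l :: ls)[j]? = some l' → c + j < t' → ∀ x ∈ l', x ≤ t' := by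
        rintro t' ⟨g1, g2, g3⟩
        refine ⟨by omega, fun x hx => (lor_bit (g2 x hx)).1, ?_⟩
        intro j l' hj hc x hx
        cases j with
        | zero =>
          have hl : l = l' := by simpa using hj
          subst hl
          by_contra hcon
          have := (lor_bit (g2 x (by omega))).2
          rw [mask_bit hx] at this
          simp at this
        | succ j => exact g3 j l' (by simpa using hj) (by omega) x hx
      rw [walk] at h
      split_ifs at h with hct
      · have hca : c = a := Nat.eq_of_beq_eq_true hct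
        rw [Bool.and_eq_true] at h
        have h1 := Nat.eq_of_beq_eq_true h.1
        rcases List.mem_cons.mp ht with rfl | ht
        · subst hca
          exact ⟨le_rfl, fun x hx => no_bit h1 hx, fun j l' _ hj => by omega⟩
        · exact rest t (ih ts (c + 1) _ h.2 t ht)
      · exact rest t (ih (a :: ts) (c + 1) _ h t ht)

theorem pg_sound : ∀ (ls : List (List ℕ)) (a : ℕ), pg ls a = true →
    ∀ (i k : ℕ) (l l' : List ℕ), ls[i]? = some l → ls[k]? = some l' → i < k →
      ∀ t ∈ l, a + k < t → ∀ x ∈ l', x ≤ t := by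
  intro ls
  induction ls with
  | nil => intro a _ i k l l' hi; simp at hi
  | cons l0 ls ih =>
    intro a h i k l l' hi hk hik t ht hkt x hx
    rw [pg, Bool.and_eq_true] at h
    obtain ⟨k, rfl⟩ : ∃ k', k = k' + 1 := ⟨k - 1, by omega⟩
    have hk' : ls[k]? = some l' := by simpa using hk
    cases i with
    | zero =>
      have hl : l0 = l := by simpa using hi
      subst hl
      exact (walk_sound ls l0 (a + 1) 0 h.1 t ht).2.2 k l' hk' (by omega) x hx
    | succ i => exact ih (a + 1) h.2 i k l l' (by simpa using hi) hk' (by omega) t ht (by omega) x hx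

/-- membership in a page -/
def inP (R : List (List ℕ)) (x y : ℕ) : Bool := (R.getD x []).any fun z => Nat.beq z y

theorem inP_mem {R : List (List ℕ)} {x y : ℕ} (h : inP R x y = true) :
    ∃ l, R[x]? = some l ∧ y ∈ l := by
  unfold inP at h
  rw [List.any_eq_true] at h
  obtain ⟨z, h1, h2⟩ := h
  have := Nat.eq_of_beq_eq_true h2
  subst this
  by_cases hx : x < R.length
  · refine ⟨R.getD x [], ?_, h1⟩
    rw [List.getD_eq_getElem?_getD, List.getElem?_eq_getElem hx]
    rfl
  · rw [List.getD_eq_getElem?_getD, List.getElem?_eq_none (by omega)] at h1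
    simp at h1

theorem page_free {R : List (List ℕ)} (h : pg R 0 = true) {x1 x2 x3 x4 : ℕ} (h12 : x1 < x2)
    (h23 : x2 < x3) (h34 : x3 < x4) (e1 : inP R x1 x3 = true) (e2 : inP R x2 x4 = true) :
    False := by
  obtain ⟨l, a1, a2⟩ := inP_mem e1
  obtain ⟨l', b1, b2⟩ := inP_mem e2
  have := pg_sound R 0 h x1 x2 l l' a1 b1 h12 x3 a2 (by omega) x4 b2
  omega

/-- every edge is in one of the pages -/
def cov (pos : ℕ → ℕ) (Rs : List (List (List ℕ))) : List (List ℕ) → ℕ → Bool
  | l :: ls, u => (l.all fun v => Rs.any fun R =>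
      if Nat.ble (pos u) (pos v) then inP R (pos u) (pos v) else inP R (pos v) (pos u)) &&
      cov pos Rs ls (u + 1)
  | [], _ => true

theorem cov_sound (pos : ℕ → ℕ) (Rs : List (List (List ℕ))) : ∀ (ls : List (List ℕ)) (u : ℕ),
    cov pos Rs ls u = true → ∀ (i : ℕ) (l : List ℕ), ls[i]? = some l → ∀ v ∈ l,
      ∃ R ∈ Rs, (if pos (u + i) ≤ pos v then inP R (pos (u + i)) (pos v)
        else inP R (pos v) (pos (u + i))) = true := by
  intro ls
  induction ls with
  | nil => intro u _ i l hi; simp at hi
  | cons l0 ls ih =>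
    intro u h i l hi v hv
    rw [cov, Bool.and_eq_true, List.all_eq_true] at h
    cases i with
    | zero =>
      have hl : l0 = l := by simpa using hi
      subst hl
      have h1 := h.1 v hv
      rw [List.any_eq_true] at h1
      obtain ⟨R, hR, h2⟩ := h1
      refine ⟨R, hR, ?_⟩
      simp only [Nat.add_zero]
      by_cases hle : pos u ≤ pos v
      · rw [if_pos hle]
        rw [if_pos (Nat.ble_eq_true_of_le hle)] at h2
        exact h2
      · rw [if_neg hle]
        rw [if_neg (fun hb => hle (Nat.le_of_ble_eq_true hb))] at h2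
        exact h2
    | succ i =>
      have := ih (u + 1) h.2 i l (by simpa using hi) v hv
      rw [show u + (i + 1) = u + 1 + i by ring]
      exact this

/-- A checked page assignment gives a page function. -/
theorem pages_of (pos : ℕ → ℕ) (k : ℕ) (hk : 0 < k) (Rs : List (List (List ℕ)))
    (hlen : Rs.length = k) (hpg : ∀ R ∈ Rs, pg R 0 = true) (hcov : cov pos Rs nbT 0 = true) :
    ∃ p : ℕ → ℕ → Fin k, ∀ a b c d : ℕ, TA a b → TA c d → pos a < pos c → pos c < pos b →
      pos b < pos d → p a b ≠ p c d := by
  have hmem : ∀ a b : ℕ, TA a b → pos a < pos b → ∃ q : Fin k, inP (Rs[q]'(by omega))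
      (pos a) (pos b) = true := by
    intro a b hab hlt
    rcases hab with h | h
    · have ha : a < 345 := by
        have := nb_lt h
        omega
      obtain ⟨-, -, ea, -⟩ := row_of a ha
      obtain ⟨R, hR, h2⟩ := cov_sound pos Rs nbT 0 hcov a (nb a) ea b h
      rw [Nat.zero_add, if_pos (by omega)] at h2
      obtain ⟨q, hq, rfl⟩ := List.getElem_of_mem hR
      exact ⟨⟨q, by omega⟩, h2⟩
    · have hb : b < 345 := by
        have := nb_lt h
        omega
      obtain ⟨-, -, eb, -⟩ := row_of b hb
      obtain ⟨R, hR, h2⟩ := cov_sound pos Rs nbT 0 hcov b (nb b) eb a h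
      rw [Nat.zero_add, if_neg (by omega)] at h2
      obtain ⟨q, hq, rfl⟩ := List.getElem_of_mem hR
      exact ⟨⟨q, by omega⟩, h2⟩
  classical
  refine ⟨fun a b => if h : ∃ q : Fin k, inP (Rs[q]'(by omega)) (pos a) (pos b) = true
    then h.choose else ⟨0, hk⟩, ?_⟩
  intro a b c d hab hcd h1 h2 h3 heq
  have g1 := hmem a b hab (by omega)
  have g2 := hmem c d hcd (by omega)
  simp only at heq
  rw [dif_pos g1, dif_pos g2] at heq
  have e1 := g1.choose_spec
  have e2 := g2.choose_spec
  rw [← heq] at e2
  exact page_free (hpg _ (List.getElem_mem _)) h1 h2 h3 e1 e2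

def posF (u : ℕ) : ℕ := posT.getD u 0

/-- `posT` is a permutation -/
def permOK : List ℕ → ℕ → Bool
  | x :: xs, u => Nat.blt x 345 && Nat.beq (ordT.getD x 0) u && permOK xs (u + 1)
  | [], u => Nat.beq u 345

theorem permOK_sound : ∀ (xs : List ℕ) (u : ℕ), permOK xs u = true → u + xs.length = 345 ∧
    ∀ (i x : ℕ), xs[i]? = some x → x < 345 ∧ ordT.getD x 0 = u + i := by
  intro xs
  induction xs with
  | nil =>
    intro u h
    rw [permOK] at h
    have := Nat.eq_of_beq_eq_true h
    subst this
    simp
  | cons x xs ih =>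
    intro u h
    rw [permOK, Bool.and_eq_true, Bool.and_eq_true] at h
    obtain ⟨h1, h2⟩ := ih (u + 1) h.2
    refine ⟨by simp; omega, ?_⟩
    intro i y hi
    cases i with
    | zero =>
      have : x = y := by simpa using hi
      subst this
      have a1 : x < 345 := by simpa [Nat.blt] using h.1.1
      exact ⟨a1, Nat.eq_of_beq_eq_true h.1.2⟩
    | succ i =>
      have := h2 i y (by simpa using hi)
      exact ⟨this.1, by rw [this.2]; ring⟩

set_option maxRecDepth 100000 in
theorem perm_ok : permOK posT 0 = true := by decide +kernel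

theorem posF_spec (u : ℕ) (hu : u < 345) : posF u < 345 ∧ ordT.getD (posF u) 0 = u := by
  obtain ⟨h1, h2⟩ := permOK_sound posT 0 perm_ok
  have hl : u < posT.length := by omega
  have h3 : posT[u]? = some (posF u) := by
    unfold posF
    rw [List.getD_eq_getElem?_getD, List.getElem?_eq_getElem hl]
    rfl
  have := h2 u _ h3
  exact ⟨this.1, by simpa using this.2⟩

theorem posF_inj (u v : ℕ) (hu : u < 345) (hv : v < 345) (h : posF u = posF v) : u = v := by
  have h1 := (posF_spec u hu).2
  have h2 := (posF_spec v hv).2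
  rw [h] at h1
  omega

set_option maxRecDepth 100000 in
theorem four_pg : (pg four0 0 && pg four1 0 && pg four2 0 && pg four3 0) = true := by
  decide +kernel

set_option maxRecDepth 100000 in
theorem five_pg : (pg five0 0 && pg five1 0 && pg five2 0 && pg five3 0 && pg five4 0) = true := by
  decide +kernel

set_option maxRecDepth 100000 in
theorem four_cov : cov posF [four0, four1, four2, four3] nbT 0 = true := by decide +kernel

set_option maxRecDepth 100000 in
theorem five_cov : cov (fun x => x) [five0, five1, five2, five3, five4] nbT 0 = true := by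
  decide +kernel

theorem all4 (A B C D : List (List ℕ)) (h : (pg A 0 && pg B 0 && pg C 0 && pg D 0) = true) :
    ∀ R ∈ [A, B, C, D], pg R 0 = true := by
  simp only [Bool.and_eq_true] at h
  obtain ⟨⟨⟨h0, h1⟩, h2⟩, h3⟩ := h
  intro R hR
  simp only [List.mem_cons, List.not_mem_nil, or_false] at hR
  rcases hR with rfl | rfl | rfl | rfl <;> assumption

theorem all5 (A B C D E : List (List ℕ))
    (h : (pg A 0 && pg B 0 && pg C 0 && pg D 0 && pg E 0) = true) :
    ∀ R ∈ [A, B, C, D, E], pg R 0 = true := by
  simp only [Bool.and_eq_true] at h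
  obtain ⟨⟨⟨⟨h0, h1⟩, h2⟩, h3⟩, h4⟩ := h
  intro R hR
  simp only [List.mem_cons, List.not_mem_nil, or_false] at hR
  rcases hR with rfl | rfl | rfl | rfl | rfl <;> assumption

/-- four pages in the order `posF` -/
theorem four_pages : ∃ p : ℕ → ℕ → Fin 4, ∀ a b c d : ℕ, TA a b → TA c d → posF a < posF c →
    posF c < posF b → posF b < posF d → p a b ≠ p c d :=
  pages_of posF 4 (by norm_num) [four0, four1, four2, four3] rfl
    (all4 four0 four1 four2 four3 four_pg) four_cov

/-- five pages in the natural order -/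
theorem five_pages : ∃ p : ℕ → ℕ → Fin 5, ∀ a b c d : ℕ, TA a b → TA c d → a < c →
    c < b → b < d → p a b ≠ p c d :=
  pages_of (fun x => x) 5 (by norm_num) [five0, five1, five2, five3, five4] rfl
    (all5 five0 five1 five2 five3 five4 five_pg) five_cov

end Pool.Agent.Lib.MP_cd28a7_co.W
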