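import Mathlib

/-!
MP_cd28a7_co, witnessing layouts: a 4-page book embedding of `T` in another order (`posT`, pages
`four`) and a partition into 5 pages in the natural order (`five`). For every page the list of the
right neighbours (positions) of every position.
-/

set_option autoImplicit false

namespace Pool.Agent.Lib.MP_cd28a7_co.W

/-- position of every vertex -/
def posT : List ℕ :=
  [
   0, 1, 2, 3, 4, 5, 6, 7, 8, 9, 10, 11, 12, 13, 14, 15, 16, 17, 18, 19, 20, 21, 22, 23, 24, 25,
   26, 27, 28, 29, 30, 31, 32, 33, 34, 35, 36, 37, 38, 39, 40, 41, 42, 43, 44, 45, 46, 47, 48,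
   49, 50, 51, 52, 53, 54, 55, 56, 57, 58, 59, 60, 61, 62, 63, 64, 65, 66, 67, 68, 69, 70, 71,
   72, 73, 74, 75, 76, 77, 78, 79, 80, 81, 82, 83, 84, 85, 86, 87, 88, 90, 91, 89, 94, 92, 95,
   96, 97, 98, 99, 93, 102, 101, 103, 104, 105, 100, 107, 108, 109, 110, 111, 106, 113, 114, 112,
   116, 117, 115, 121, 118, 119, 120, 122, 123, 124, 125, 126, 127, 128, 129, 130, 131, 132, 133,
   134, 135, 136, 137, 138, 139, 140, 141, 142, 143, 144, 145, 146, 147, 148, 149, 150, 151, 152,
   153, 154, 155, 156, 157, 158, 159, 160, 161, 162, 163, 164, 165, 166, 167, 168, 171, 170, 169,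
   173, 174, 172, 183, 184, 176, 182, 181, 175, 180, 179, 177, 186, 187, 178, 189, 190, 191, 192,
   193, 188, 195, 194, 185, 196, 197, 198, 201, 200, 202, 203, 205, 199, 204, 206, 207, 208, 209,
   210, 211, 212, 213, 214, 215, 216, 217, 218, 219, 220, 221, 222, 223, 224, 225, 226, 227, 228,
   229, 230, 231, 232, 233, 234, 235, 236, 237, 238, 239, 240, 241, 242, 243, 244, 245, 246, 247,
   248, 249, 250, 251, 252, 253, 254, 255, 256, 257, 258, 259, 260, 261, 262, 263, 264, 265, 266,
   267, 268, 269, 270, 271, 272, 273, 274, 275, 276, 277, 278, 279, 280, 281, 282, 283, 284, 285,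
   286, 287, 288, 289, 290, 291, 292, 293, 294, 295, 296, 297, 298, 299, 300, 301, 302, 303, 304,
   305, 306, 307, 308, 309, 310, 311, 312, 313, 314, 315, 316, 317, 318, 319, 320, 321, 322, 323,
   324, 325, 326, 327, 328, 329, 330, 331, 332, 333, 334, 335, 336, 337, 338, 339, 340, 341, 342,
   343, 344]

/-- vertex at every position -/
def ordT : List ℕ :=
  [
   0, 1, 2, 3, 4, 5, 6, 7, 8, 9, 10, 11, 12, 13, 14, 15, 16, 17, 18, 19, 20, 21, 22, 23, 24, 25,
   26, 27, 28, 29, 30, 31, 32, 33, 34, 35, 36, 37, 38, 39, 40, 41, 42, 43, 44, 45, 46, 47, 48,
   49, 50, 51, 52, 53, 54, 55, 56, 57, 58, 59, 60, 61, 62, 63, 64, 65, 66, 67, 68, 69, 70, 71,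
   72, 73, 74, 75, 76, 77, 78, 79, 80, 81, 82, 83, 84, 85, 86, 87, 88, 91, 89, 90, 93, 99, 92,
   94, 95, 96, 97, 98, 105, 101, 100, 102, 103, 104, 111, 106, 107, 108, 109, 110, 114, 112, 113,
   117, 115, 116, 119, 120, 121, 118, 122, 123, 124, 125, 126, 127, 128, 129, 130, 131, 132, 133,
   134, 135, 136, 137, 138, 139, 140, 141, 142, 143, 144, 145, 146, 147, 148, 149, 150, 151, 152,
   153, 154, 155, 156, 157, 158, 159, 160, 161, 162, 163, 164, 165, 166, 167, 168, 171, 170, 169,
   174, 172, 173, 180, 177, 183, 186, 182, 181, 179, 178, 175, 176, 195, 184, 185, 192, 187, 188,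
   189, 190, 191, 194, 193, 196, 197, 198, 204, 200, 199, 201, 202, 205, 203, 206, 207, 208, 209,
   210, 211, 212, 213, 214, 215, 216, 217, 218, 219, 220, 221, 222, 223, 224, 225, 226, 227, 228,
   229, 230, 231, 232, 233, 234, 235, 236, 237, 238, 239, 240, 241, 242, 243, 244, 245, 246, 247,
   248, 249, 250, 251, 252, 253, 254, 255, 256, 257, 258, 259, 260, 261, 262, 263, 264, 265, 266,
   267, 268, 269, 270, 271, 272, 273, 274, 275, 276, 277, 278, 279, 280, 281, 282, 283, 284, 285,
   286, 287, 288, 289, 290, 291, 292, 293, 294, 295, 296, 297, 298, 299, 300, 301, 302, 303, 304,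
   305, 306, 307, 308, 309, 310, 311, 312, 313, 314, 315, 316, 317, 318, 319, 320, 321, 322, 323,
   324, 325, 326, 327, 328, 329, 330, 331, 332, 333, 334, 335, 336, 337, 338, 339, 340, 341, 342,
   343, 344]

/-- page 0 -/
def four0 : List (List ℕ) :=
  [
   [1, 3, 69, 207, 342, 344], [2, 3], [3], [4, 9], [5, 7, 9], [6, 7], [7], [8, 9], [9], [10, 12,
   30], [11, 12], [12], [13, 18, 30], [14, 16, 18], [15, 16], [16], [17, 18], [18], [19, 20, 21],
   [20], [21], [22, 27, 30], [23, 25, 27], [24, 25], [25], [26, 27], [27], [28, 29, 30], [29],
   [30], [31, 32, 33], [32], [33], [34, 35, 36, 42], [35], [36], [37, 42], [38, 40, 42], [39,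
   40], [40], [41, 42], [42], [43, 44, 45], [44], [45], [46, 51], [47, 49, 51], [48, 49], [49],
   [50, 51], [51], [52, 53, 54, 63], [53], [54], [55, 56, 57, 63], [56], [57], [58, 63], [59, 61,
   63], [60, 61], [61], [62, 63], [63], [64, 69], [65, 67, 69], [66, 67], [67], [68, 69], [69],
   [70, 75, 135, 141, 144, 147, 156, 159, 162, 165, 168, 169, 172, 175, 176, 177, 178, 191, 198,
   199, 202, 207], [71, 73, 75], [73], [], [], [75], [81, 84, 87], [79, 81], [79], [], [80, 81],
   [], [83], [], [], [], [87], [], [88], [], [90, 94, 95, 97], [], [93, 94], [], [], [95], [96,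
   97], [97], [98, 103], [102, 103], [102], [102], [], [], [105, 106, 135], [], [], [110, 111,
   112, 113, 114, 115], [108, 110], [110], [], [], [], [], [114], [], [121, 123], [117, 121],
   [121], [120, 121], [], [], [123], [], [129], [127, 129], [127], [127], [], [], [135], [131,
   133, 135], [132, 133], [], [], [], [136, 141], [137, 139, 141], [139], [139], [140], [], [143,
   144], [143], [], [147], [], [147], [148, 149, 150], [], [], [156], [152, 154, 156], [154], [],
   [], [], [157, 159], [], [], [], [], [], [164, 165], [], [165], [167, 168], [], [], [169],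
   [170], [], [], [174, 175], [], [], [], [177], [178], [186, 187, 188, 189, 190, 191], [186],
   [186], [182], [184], [184], [], [], [187], [], [189], [190], [191], [193], [193], [], [196],
   [], [], [], [], [], [202], [], [205, 207], [205], [], [], [], [208, 209, 210, 273, 276, 279,
   282, 285, 294, 297, 300, 303, 306, 309, 312, 315, 318, 321, 324, 336, 339, 342], [209], [210],
   [211, 216, 243, 273], [212, 214, 216], [213, 214], [214], [215, 216], [216], [217, 218, 219,
   237, 243], [218], [219], [220, 222, 231, 237], [221, 222], [222], [223, 228, 231], [224, 226,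
   228], [225, 226], [226], [227, 228], [228], [229, 230, 231], [230], [231], [232, 237], [233,
   235, 237], [234, 235], [235], [236, 237], [237], [238, 243], [239, 241, 243], [240, 241],
   [241], [242, 243], [243], [244, 245, 246], [245], [246], [247, 249, 255, 264, 267, 270, 273],
   [248, 249], [249], [250, 255], [251, 253, 255], [252, 253], [253], [254, 255], [255], [256,
   257, 258], [257], [258], [259, 264], [260, 262, 264], [261, 262], [262], [263, 264], [264],
   [265, 267], [266, 267], [267], [268, 269, 270], [269], [270], [271, 272, 273], [272], [273],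
   [274, 275, 276], [275], [276], [277, 278, 279], [278], [279], [280, 281, 282], [281], [282],
   [283, 284, 285], [284], [285], [286, 291], [287, 289, 291], [288, 289], [289], [290, 291],
   [291], [292, 293, 294], [293], [294], [295, 296, 297], [296], [297], [298, 300], [299, 300],
   [300], [301, 302, 303], [302], [303], [304, 305, 306], [305], [306], [307, 308, 309], [308],
   [309], [310, 311, 312], [311], [312], [313, 314, 315], [314], [315], [316, 317, 318], [317],
   [318], [319, 320, 321], [320], [321], [322, 323, 324], [323], [324], [325, 330], [326, 328,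
   330], [327, 328], [328], [329, 330], [330], [331, 336], [332, 334, 336], [333, 334], [334],
   [335, 336], [336], [337, 338, 339], [338], [339], [340, 341, 342], [341], [342], [343, 344],
   [344], []]

/-- page 1 -/
def four1 : List (List ℕ) :=
  [
   [6, 276, 343], [4, 6], [4], [], [6], [], [], [], [], [15, 276], [13, 15], [13], [], [15], [],
   [18], [], [], [276], [21], [], [24, 276], [24], [], [30, 276], [28, 30], [28], [], [30], [],
   [276], [33], [], [276], [36], [], [276], [39], [], [42, 276], [], [], [276], [45], [], [276],
   [48], [], [276], [], [], [276], [54], [], [60], [58, 60], [58], [], [60], [], [276], [], [],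
   [276], [66], [], [68, 69, 276], [], [], [71, 138, 276], [], [], [73, 78, 135], [74, 76, 78],
   [76], [76], [77, 78], [], [81, 93], [], [81], [84, 92, 93], [], [], [85, 86, 87, 92], [],
   [87], [92], [89, 92], [91, 92], [], [], [], [95, 98, 99, 100, 101, 102, 103], [], [98], [98],
   [], [], [], [], [], [103], [104, 109], [107, 109], [107], [], [], [], [110, 112, 126, 129,
   132, 135], [112], [], [113, 116, 117, 119, 123, 126], [116], [116], [], [], [], [], [121,
   122], [121], [], [], [], [126], [], [], [129], [], [130], [], [], [135], [135], [], [], [],
   [138], [141, 249, 252, 276], [141], [], [199], [], [], [150], [146, 148, 150], [148], [], [],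
   [150], [153, 162], [153], [153], [154, 155, 162], [155], [], [162], [160, 162], [160], [],
   [162], [162], [163], [165], [], [169], [168, 169], [], [], [173, 174, 175, 176, 199], [173],
   [173], [], [], [], [176], [178, 181, 182, 183, 184, 185, 198, 199], [], [180], [], [], [],
   [183], [], [], [191, 192, 194, 195, 196, 197, 198], [189, 191], [189], [], [], [], [192], [],
   [], [195], [], [], [], [199], [203, 204, 205, 206, 207, 210], [203], [203], [], [204], [], [],
   [207], [], [210], [], [212, 213], [], [], [243], [217, 219], [], [], [219], [], [225], [223,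
   225], [223], [], [225], [], [231], [229, 231], [229], [], [231], [], [], [234], [], [240,
   243], [238, 240], [238], [], [240], [], [242], [], [], [249], [247, 249], [247], [], [], [],
   [], [252], [], [258], [256, 258], [256], [], [258], [], [270], [261], [], [270], [], [],
   [270], [268, 270], [268], [], [270], [], [276], [274, 276], [274], [], [276], [], [], [279],
   [], [342], [282], [], [312], [285], [], [], [288], [], [294], [292, 294], [292], [], [294],
   [], [300], [298, 300], [298], [], [], [], [], [303], [], [309, 312], [307, 309], [307], [],
   [309], [], [], [312], [], [], [315], [], [321, 324, 333, 336, 339, 342], [319, 321], [319],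
   [], [321], [], [], [324], [], [327], [327], [], [333], [331, 333], [331], [], [333], [], [],
   [], [], [], [339], [], [], [342], [], [], [], []]

/-- page 2 -/
def four2 : List (List ℕ) :=
  [
   [2, 66, 72, 75, 78, 87, 91, 92, 93, 97, 100, 103, 106, 109, 112, 115, 119, 129, 132, 135, 138,
   339, 340], [], [], [5, 36, 66], [], [], [8, 9, 36], [], [], [11, 36], [], [], [14, 24], [],
   [], [21, 24], [19, 21], [19], [], [], [], [23], [], [], [26], [], [], [36], [], [], [36], [34,
   36], [34], [], [], [], [38, 39], [], [], [41, 48, 57, 60, 63, 66], [], [], [48], [46, 48],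
   [46], [], [], [], [50, 51], [], [], [57], [55, 57], [55], [], [57], [], [59, 60], [], [], [62,
   63], [], [], [65, 66], [], [], [72], [72], [], [72], [72], [], [74, 75], [], [], [77], [], [],
   [80], [], [], [87], [83, 85, 87], [84, 85], [], [], [], [90, 91], [], [], [], [92], [], [97],
   [], [], [], [], [], [], [103], [103], [], [], [], [], [109], [109], [109], [111], [], [],
   [114, 115], [], [], [], [119], [], [], [126], [124, 126], [], [123, 124], [], [125], [126],
   [128, 129], [128], [], [131, 132], [], [], [134], [], [], [137, 138], [], [], [140, 207], [],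
   [], [147, 172, 207], [145, 147], [145], [145], [147], [], [168, 172], [149, 150], [], [151,
   152, 168], [], [], [159], [157, 159], [157], [], [159], [159], [160, 161, 162, 168], [], [],
   [168], [166, 168], [166], [166], [], [], [172], [171, 172], [], [172], [173, 176], [176], [],
   [], [202], [179, 180, 182, 185, 186, 187, 188, 191], [], [], [182], [], [], [], [], [], [],
   [], [191], [191], [], [202], [195], [195], [], [], [201, 202], [201], [200, 201], [], [201],
   [202], [203], [207], [205, 207], [], [], [213, 327], [211, 213], [211], [], [213], [], [215,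
   219, 222, 225], [], [217], [], [], [], [221], [], [], [224, 225], [], [], [227], [], [], [234,
   237], [232, 234], [232], [], [], [], [236, 237], [], [], [239], [], [], [246, 249, 273], [244,
   246], [244], [], [246], [], [248], [], [], [251, 252], [], [], [254, 261, 264], [], [], [261],
   [259, 261], [259], [], [], [], [263, 264], [], [], [266], [], [], [273], [271, 273], [271],
   [], [273], [], [279], [277, 279], [277], [], [], [], [285, 312], [283, 285], [283], [], [],
   [], [287, 288, 306, 312], [], [], [290, 300, 306], [], [], [297, 300], [295, 297], [295], [],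
   [297], [], [299], [], [], [306], [304, 306], [304], [], [306], [], [312], [310, 312], [310],
   [], [], [], [318], [316, 318], [316], [], [318], [], [324], [322, 324], [322], [], [], [],
   [326], [], [], [329, 339], [], [], [332, 339], [], [], [339], [337, 339], [337], [], [], [],
   [], [343], [343], [], [], []]

/-- page 3 -/
def four3 : List (List ℕ) :=
  [
   [], [343, 344], [], [6, 276, 342, 343], [], [], [12, 15, 18, 276], [10, 12], [10], [], [], [],
   [15], [], [], [17], [], [], [24], [22, 24], [22], [], [], [], [27], [], [], [33, 276], [31,
   33], [31], [], [], [], [39, 66], [37, 39], [37], [], [], [], [45], [43, 45], [43], [], [], [],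
   [47, 48, 54, 57], [], [], [54], [52, 54], [52], [], [], [], [], [], [], [], [], [], [66], [64,
   66], [64], [], [], [], [], [70], [70], [], [], [72], [100], [75], [], [78, 100], [], [78],
   [79, 84, 100], [82, 84], [82], [82], [84], [], [91], [86, 88, 91], [88], [], [90, 91], [],
   [91], [97], [93, 94, 95, 96, 97], [], [], [], [], [99, 100], [99], [], [104, 105, 106, 107,
   108, 109], [102, 104], [104], [], [105], [], [107], [], [], [115], [111, 113], [113], [],
   [115], [], [116, 117, 118, 119], [], [], [119], [120, 123, 132], [122, 123], [], [], [124,
   125, 126, 132], [], [], [132], [130, 132], [129, 130], [], [132], [], [133, 138], [134, 136,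
   138], [135, 136], [], [138], [], [144, 210, 213, 216, 225, 228, 231, 234, 237, 240, 243, 246,
   255, 258, 267, 270, 273], [142, 144], [141, 142], [142], [144], [144], [146, 153, 156, 172],
   [], [], [153], [151, 153], [151], [], [], [], [156], [156], [156], [158], [158], [], [165],
   [161, 163, 165], [163], [], [164], [], [172], [167, 171], [168, 171], [170, 171], [], [171],
   [], [183, 184], [174, 183], [183], [177, 178, 179, 180, 181, 182, 183], [], [], [], [180],
   [181], [], [], [], [], [188, 202], [], [], [192, 193, 194, 195, 198, 202], [192], [192], [],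
   [], [], [], [196, 198], [197, 198], [198], [202], [201, 202], [], [], [], [], [206, 208, 210],
   [], [208], [], [], [], [], [], [], [216], [], [], [222], [220, 222], [220], [], [], [], [],
   [], [], [228], [], [], [], [], [], [233, 234], [], [], [], [], [], [240], [], [], [243], [],
   [], [], [], [], [252], [250, 252], [250], [], [], [], [255], [], [], [], [], [], [260, 261],
   [], [], [267], [265, 267], [265], [], [], [], [], [], [], [], [], [], [], [], [], [282, 342],
   [280, 282], [280], [], [], [], [288, 291, 294], [286, 288], [286], [], [], [], [291], [], [],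
   [], [], [], [], [], [], [303, 306], [301, 303], [301], [], [], [], [], [], [], [], [], [],
   [315, 318, 342], [313, 315], [313], [], [], [], [], [], [], [], [], [], [327, 330, 333], [325,
   327], [325], [], [], [], [330], [], [], [333], [], [], [335, 336], [], [], [342], [340, 342],
   [340], [], [], [], [], [], []]

/-- page 0 -/
def five0 : List (List ℕ) :=
  [
   [1, 2, 3, 6, 66, 69, 72, 75, 78, 87, 90, 93, 96, 99, 102, 105, 108, 111, 114, 117, 120, 129,
   132, 135, 138, 207, 276, 339, 340, 342, 343, 344], [2], [3], [4, 5, 6], [5], [6], [7, 8, 9,
   12, 15, 18, 36], [8], [9], [10, 11, 12], [11], [12], [13, 14, 15], [14], [15], [16, 17, 18],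
   [17], [18], [19, 20, 21, 24], [20], [21], [22, 23, 24], [23], [24], [25, 26, 27], [26], [27],
   [28, 33, 36], [29, 31, 33], [30, 31], [31], [32, 33], [33], [34, 35, 36], [35], [36], [37, 38,
   39, 42], [38], [39], [40, 41, 42], [41], [42], [43, 44, 45, 48], [44], [45], [46, 47, 48],
   [47], [48], [49, 50, 51], [50], [51], [52, 53, 54, 57, 63], [53], [54], [55, 56, 57], [56],
   [57], [58, 63], [59, 61, 63], [60, 61], [61], [62, 63], [63], [64, 65, 66], [65], [66], [67,
   68, 69], [68], [69], [70, 71, 72], [71], [72], [73, 74, 75], [74], [75], [76, 77, 78], [77],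
   [78], [79, 80, 81, 84], [80], [81], [82, 83, 84], [83], [84], [85, 86, 87], [86], [87], [88,
   89, 90], [89], [90], [91, 92, 93], [92], [93], [94, 95, 96], [95], [96], [97, 98, 99], [98],
   [99], [100, 101, 102], [101], [102], [103, 104, 105], [104], [105], [106, 107, 108], [107],
   [108], [109, 110, 111], [110], [111], [112, 113, 114], [113], [114], [115, 116, 117], [116],
   [117], [118, 119, 120], [119], [120], [121, 122, 123], [122], [123], [124, 129], [125, 127,
   129], [126, 127], [127], [128, 129], [129], [130, 131, 132], [131], [132], [133, 134, 135],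
   [134], [135], [136, 137, 138], [137], [138], [139, 140, 141, 144, 207], [140], [141], [142,
   143, 144], [143], [144], [145, 146, 147, 150, 153, 156, 174], [146], [147], [148, 149, 150],
   [149], [150], [151, 152, 153], [152], [153], [154, 155, 156], [155], [156], [157, 158, 159,
   162], [158], [159], [160, 161, 162], [161], [162], [163, 164, 165], [164], [165], [166, 171,
   174], [167, 169, 171], [168, 169], [169], [170, 171], [171], [172, 173, 174], [173], [174],
   [175, 176, 177, 180], [176], [177], [178, 179, 180], [179], [180], [181, 182, 183, 186],
   [182], [183], [184, 185, 186], [185], [186], [187, 188, 189], [188], [189], [190, 191, 192,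
   195, 201], [191], [192], [193, 194, 195], [194], [195], [196, 201], [197, 199, 201], [198,
   199], [199], [200, 201], [201], [202, 207], [203, 205, 207], [204, 205], [205], [206, 207],
   [207], [208, 209, 210, 213, 273, 276], [209], [210], [211, 212, 213], [212], [213], [214, 215,
   216, 219, 222, 225, 243], [215], [216], [217, 218, 219], [218], [219], [220, 221, 222], [221],
   [222], [223, 224, 225], [224], [225], [226, 227, 228, 231], [227], [228], [229, 230, 231],
   [230], [231], [232, 233, 234], [233], [234], [235, 240, 243], [236, 238, 240], [237, 238],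
   [238], [239, 240], [240], [241, 242, 243], [242], [243], [244, 245, 246, 249], [245], [246],
   [247, 248, 249], [248], [249], [250, 251, 252, 255], [251], [252], [253, 254, 255], [254],
   [255], [256, 257, 258], [257], [258], [259, 260, 261, 264, 270], [260], [261], [262, 263,
   264], [263], [264], [265, 270], [266, 268, 270], [267, 268], [268], [269, 270], [270], [271,
   272, 273], [272], [273], [274, 275, 276], [275], [276], [277, 278, 279, 282], [278], [279],
   [280, 281, 282], [281], [282], [283, 284, 285, 288, 291, 294, 312], [284], [285], [286, 287,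
   288], [287], [288], [289, 290, 291], [290], [291], [292, 293, 294], [293], [294], [295, 296,
   297, 300], [296], [297], [298, 299, 300], [299], [300], [301, 302, 303], [302], [303], [304,
   309, 312], [305, 307, 309], [306, 307], [307], [308, 309], [309], [310, 311, 312], [311],
   [312], [313, 314, 315], [314], [315], [316, 317, 318, 321, 324, 333, 336, 339], [317], [318],
   [319, 320, 321], [320], [321], [322, 323, 324], [323], [324], [325, 326, 327, 330], [326],
   [327], [328, 329, 330], [329], [330], [331, 332, 333], [332], [333], [334, 335, 336], [335],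
   [336], [337, 338, 339], [338], [339], [340], [341, 342], [342], [343], [344], []]

/-- page 1 -/
def five1 : List (List ℕ) :=
  [
   [], [], [], [], [], [], [], [], [], [], [], [], [], [], [], [], [], [], [], [], [], [27, 30],
   [25, 27], [25], [], [27], [], [29, 30], [], [], [32, 33, 36], [], [], [], [], [], [], [], [],
   [45, 48, 57, 60, 63, 66], [43, 45], [43], [], [45], [], [], [], [], [54], [], [], [], [], [],
   [], [], [], [59, 60], [], [], [62, 63], [], [], [], [], [], [], [], [], [], [], [], [], [],
   [], [], [], [], [], [], [], [87], [85, 87], [85], [], [87], [], [], [], [], [], [], [], [],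
   [], [], [], [], [], [], [], [], [], [], [], [], [], [], [], [], [], [], [], [], [], [], [],
   [], [], [], [126], [124, 126], [124], [], [126], [], [128, 129], [], [], [], [], [], [138],
   [136, 138], [136], [], [138], [], [], [], [], [], [], [], [], [], [], [], [], [], [], [], [],
   [], [], [], [], [], [], [165, 168], [163, 165], [163], [], [165], [], [167, 168], [], [],
   [170, 171, 174], [], [], [], [], [], [], [], [], [183, 186, 195, 198, 201, 204], [181, 183],
   [181], [], [183], [], [], [], [], [192], [], [], [], [], [], [], [], [], [197, 198], [], [],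
   [200, 201], [], [], [203, 204], [], [], [206, 207], [], [], [279, 282, 285, 294, 297, 300,
   303, 306, 309, 312, 315, 318, 321, 324, 327, 336, 339, 342], [], [], [], [], [], [], [], [],
   [], [], [], [], [], [], [], [], [], [], [], [], [234, 237], [232, 234], [232], [], [234], [],
   [236, 237], [], [], [239, 240], [], [], [246, 249, 273], [244, 246], [244], [], [246], [], [],
   [], [], [], [], [], [258, 261, 264], [256, 258], [256], [], [258], [], [], [], [], [], [], [],
   [266, 267], [], [], [273], [271, 273], [271], [], [273], [], [279], [277, 279], [277], [],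
   [279], [], [], [], [], [], [], [], [291], [], [], [], [], [], [], [], [], [], [], [], [], [],
   [], [], [], [], [305, 306], [], [], [308, 309], [], [], [], [], [], [], [], [], [], [], [],
   [], [], [], [], [], [], [], [], [], [333], [331, 333], [331], [], [333], [], [], [], [], [],
   [], [], [341, 342], [], [], [], [], []]

/-- page 2 -/
def five2 : List (List ℕ) :=
  [
   [], [], [], [9, 36, 66, 276, 342, 343], [7, 9], [7], [], [9], [], [30, 36], [], [], [18, 24,
   30], [16, 18], [16], [], [18], [], [], [22, 24], [22], [], [24], [], [30], [], [], [], [], [],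
   [], [34, 36], [34], [], [36], [], [], [40, 42], [40], [], [42], [], [], [], [], [51, 54, 57],
   [49, 51], [49], [], [51], [], [], [], [], [], [], [], [], [], [], [66], [64, 66], [64], [],
   [66], [], [72, 276], [70, 72], [70], [], [72], [], [78, 105, 135], [76, 78], [76], [], [78],
   [], [99, 105], [], [], [93, 99], [], [], [90, 93], [88, 90], [88], [], [90], [], [], [], [],
   [99], [97, 99], [97], [], [99], [], [105], [103, 105], [103], [], [105], [], [], [], [], [114,
   117, 126, 129, 132, 135], [112, 114], [112], [], [114], [], [], [], [], [123], [121, 123],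
   [121], [], [123], [], [125, 126], [], [], [], [], [], [], [], [], [], [], [], [141], [139,
   141], [139], [], [141], [], [147, 174, 204, 207], [145, 147], [145], [], [147], [], [168,
   174], [], [], [156, 162, 168], [154, 156], [154], [], [156], [], [], [160, 162], [160], [],
   [162], [], [168], [], [], [], [], [], [], [172, 174], [172], [], [174], [], [], [178, 180],
   [178], [], [180], [], [], [], [], [189, 192, 195], [187, 189], [187], [], [189], [], [], [],
   [], [], [], [], [], [], [], [204], [202, 204], [202], [], [204], [], [], [], [], [], [], [],
   [216, 243, 273], [214, 216], [214], [], [216], [], [237, 243], [], [], [225, 231, 237], [223,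
   225], [223], [], [225], [], [], [229, 231], [229], [], [231], [], [237], [], [], [], [], [],
   [243], [], [], [], [], [], [], [], [], [252, 255, 264, 267, 270, 273], [250, 252], [250], [],
   [252], [], [], [], [], [261], [], [], [], [], [], [], [], [], [], [], [], [269, 270], [], [],
   [], [], [], [], [], [], [342], [], [], [285, 342], [], [], [], [], [], [306], [], [], [294,
   300, 306], [292, 294], [292], [], [294], [], [], [298, 300], [298], [], [300], [], [306], [],
   [], [], [], [], [], [], [], [315, 342], [], [], [], [], [], [342], [319, 321], [319], [],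
   [321], [], [], [], [], [], [328, 330], [328], [], [330], [], [], [], [], [], [], [], [342],
   [340, 342], [340], [], [], [], [], [], []]

/-- page 3 -/
def five3 : List (List ℕ) :=
  [
   [], [], [4], [], [6], [], [], [10, 12], [10], [], [12], [], [], [], [], [21, 24], [19, 21],
   [19], [], [21], [], [], [], [], [], [28, 30], [28], [], [30], [], [], [], [], [39, 42, 66],
   [37, 39], [37], [], [39], [], [], [], [], [], [46, 48], [46], [], [48], [], [], [52, 54],
   [52], [], [54], [], [60, 63], [58, 60], [58], [], [60], [], [], [], [], [], [], [], [], [],
   [], [], [], [], [], [], [], [], [], [], [], [82, 84], [82], [], [84], [], [], [], [], [], [],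
   [], [96, 99], [94, 96], [94], [], [96], [], [], [], [], [], [], [], [108, 111, 135], [106,
   108], [106], [], [108], [], [], [], [], [], [], [], [120, 123, 126], [118, 120], [118], [],
   [120], [], [], [], [], [], [], [], [], [], [], [135], [133, 135], [133], [], [135], [], [],
   [], [], [210, 213, 216, 225, 228, 231, 234, 237, 240, 243, 246, 249, 252, 255, 258, 267, 270,
   273, 276], [142, 144], [142], [], [144], [], [], [148, 150], [148], [], [150], [], [], [], [],
   [159, 162], [157, 159], [157], [], [159], [], [], [], [], [], [166, 168], [166], [], [168],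
   [], [], [], [], [177, 180, 204], [175, 177], [175], [], [177], [], [], [], [], [], [184, 186],
   [184], [], [186], [], [], [190, 192], [190], [], [192], [], [198, 201], [196, 198], [196], [],
   [198], [], [], [], [], [], [], [], [210], [208, 210], [208], [], [210], [], [], [], [], [],
   [], [], [222], [220, 222], [220], [], [222], [], [], [], [], [], [], [], [], [], [], [], [],
   [], [], [], [], [], [], [], [], [], [], [], [], [], [], [], [], [], [], [], [], [], [], [],
   [], [], [], [262, 264], [262], [], [264], [], [], [], [], [], [], [], [], [], [], [], [], [],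
   [], [], [], [312], [283, 285], [283], [], [285], [], [312], [289, 291], [289], [], [291], [],
   [297, 300], [295, 297], [295], [], [297], [], [], [], [], [], [304, 306], [304], [], [306],
   [], [312], [310, 312], [310], [], [312], [], [318], [316, 318], [316], [], [318], [], [], [],
   [], [327, 330, 333], [325, 327], [325], [], [327], [], [], [], [], [], [], [], [339], [337,
   339], [337], [], [339], [], [], [], [], [344], [], []]

/-- page 4 -/
def five4 : List (List ℕ) :=
  [
   [], [3, 4, 6, 343, 344], [], [], [], [], [276], [], [], [15, 276], [13, 15], [13], [], [15],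
   [], [], [], [], [276], [], [], [276], [], [], [276], [], [], [276], [], [], [276], [], [],
   [276], [], [], [276], [], [], [276], [], [], [276], [], [], [276], [], [], [276], [], [],
   [276], [55, 57], [55], [], [57], [], [], [], [], [276], [], [], [69, 276], [67, 69], [67], [],
   [69], [], [75, 135, 138, 141, 144, 147, 156, 159, 162, 165, 168, 171, 174, 177, 180, 183, 186,
   189, 198, 201, 204, 207, 276], [73, 75], [73], [], [75], [], [81, 84, 87, 105], [79, 81],
   [79], [], [81], [], [], [], [], [], [], [], [93], [91, 93], [91], [], [93], [], [], [], [],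
   [102, 105], [100, 102], [100], [], [102], [], [], [], [], [111], [109, 111], [109], [], [111],
   [], [117], [115, 117], [115], [], [117], [], [], [], [], [132], [], [], [132], [], [], [132],
   [130, 132], [130], [], [132], [], [], [], [], [], [], [], [], [], [], [], [], [], [], [], [],
   [153], [151, 153], [151], [], [153], [], [], [], [], [], [], [], [], [], [], [], [], [], [],
   [], [], [], [], [], [], [], [], [], [], [], [], [], [], [], [], [], [], [], [], [], [], [],
   [], [193, 195], [193], [], [195], [], [], [], [], [], [], [], [], [], [], [], [], [], [],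
   [211, 213], [211], [], [213], [], [], [217, 219], [217], [], [219], [], [], [], [], [228,
   231], [226, 228], [226], [], [228], [], [], [], [], [], [235, 237], [235], [], [237], [], [],
   [241, 243], [241], [], [243], [], [], [247, 249], [247], [], [249], [], [], [253, 255], [253],
   [], [255], [], [], [259, 261], [259], [], [261], [], [267, 270], [265, 267], [265], [], [267],
   [], [], [], [], [276], [274, 276], [274], [], [276], [], [], [280, 282], [280], [], [282], [],
   [], [286, 288], [286], [], [288], [], [], [], [], [], [], [], [], [], [], [303, 306], [301,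
   303], [301], [], [303], [], [], [], [], [], [], [], [318], [313, 315], [313], [], [315], [],
   [], [], [], [324], [322, 324], [322], [], [324], [], [], [], [], [339], [], [], [336, 339],
   [334, 336], [334], [], [336], [], [], [], [], [], [343], [343], [], [], []]

end Pool.Agent.Lib.MP_cd28a7_co.W
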