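import Pool.Agent.Lib.MP_cd28a7_co.W.Data
import Pool.Agent.Lib.MP_cd28a7_co.W.Ext

/-!
MP_cd28a7_co, witnessing layouts: in the natural order the graph `T` has no three pairwise crossing
edges, 1370 edges, and the vertices `3 i + 2` have degree four (kernel checks).
-/

set_option autoImplicit false

namespace Pool.Agent.Lib.MP_cd28a7_co.W

/-- upper neighbours of `u` -/
def nb (u : ℕ) : List ℕ := nbT.getD u []

/-- the bits `d + 1, …, f - 1` -/
def band (d f : ℕ) : ℕ := ((1 <<< (f - (d + 1))) - 1) <<< (d + 1)

theorem band_bit {d f x : ℕ} (h1 : d < x) (h2 : x < f) : (band d f).testBit x = true := by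
  unfold band
  rw [Nat.testBit_shiftLeft, Nat.one_shiftLeft, Nat.testBit_two_pow_sub_one]
  simp only [Bool.and_eq_true, decide_eq_true_eq]
  omega

/-- the mask of a list -/
def mask : List ℕ → ℕ
  | [] => 0
  | v :: l => Nat.lor (1 <<< v) (mask l)

theorem mask_bit {l : List ℕ} {v : ℕ} (h : v ∈ l) : (mask l).testBit v = true := by
  induction l with
  | nil => simp at h
  | cons a l ih =>
    show ((1 <<< a) ||| (mask l)).testBit v = true
    rw [Nat.testBit_or, Bool.or_eq_true]
    rcases List.mem_cons.mp h with rfl | h
    · left
      rw [Nat.one_shiftLeft, Nat.testBit_two_pow_self]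
    · exact Or.inr (ih h)

def inner (na : List ℕ) (D : ℕ) : List ℕ → List (List ℕ) → ℕ → ℕ → Bool
  | r :: rs, l :: ls, c, U =>
    Nat.ble D c || ((na.all fun d => Nat.ble d c ||
      l.all fun f => Nat.ble f d || Nat.beq (Nat.land U (band d f)) 0) &&
      inner na D rs ls (c + 1) (Nat.lor U r))
  | _, _, _, _ => true

/-- the maximum of a list -/
def mx : List ℕ → ℕ
  | [] => 0
  | v :: l => if Nat.ble v (mx l) then mx l else v

theorem le_mx {l : List ℕ} {v : ℕ} (h : v ∈ l) : v ≤ mx l := by
  induction l with
  | nil => simp at h
  | cons a l ih =>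
    rw [mx]
    rcases List.mem_cons.mp h with rfl | h
    · split_ifs with h1
      · exact Nat.le_of_ble_eq_true h1
      · exact le_rfl
    · split_ifs with h1
      · exact ih h
      · have h2 : ¬ (a ≤ mx l) := fun h' => h1 (Nat.ble_eq_true_of_le h')
        have := ih h
        omega

def outer : List ℕ → List (List ℕ) → ℕ → Bool
  | _ :: rs, l :: ls, a => inner l (mx l) rs ls (a + 1) 0 && outer rs ls (a + 1)
  | _, _, _ => true

theorem inner_sound (na : List ℕ) (D : ℕ) (hD : ∀ d ∈ na, d ≤ D) :
    ∀ (rs : List ℕ) (ls : List (List ℕ)) (c U : ℕ),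
    inner na D rs ls c U = true → rs.length = ls.length →
    ∀ (j : ℕ) (l : List ℕ), ls[j]? = some l → ∀ d f x : ℕ, d ∈ na → f ∈ l → c + j < d → d < x →
      x < f → (U.testBit x = true ∨ ∃ k r, k < j ∧ rs[k]? = some r ∧ r.testBit x = true) → False := by
  intro rs
  induction rs with
  | nil =>
    intro ls c U _ hlen j l hj
    have : ls = [] := by
      cases ls with
      | nil => rfl
      | cons a t => simp at hlen
    subst this
    simp at hj
  | cons r rs ih =>
    intro ls c U h hlen j l hj d f x hd hf hc hdx hxf hU
    cases ls with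
    | nil => simp at hlen
    | cons l0 ls =>
      rw [inner, Bool.or_eq_true] at h
      rcases h with h | h
      · have := Nat.le_of_ble_eq_true h
        have := hD d hd
        omega
      rw [Bool.and_eq_true] at h
      obtain ⟨h1, h2⟩ := h
      cases j with
      | zero =>
        have hl : l0 = l := by simpa using hj
        subst hl
        rcases hU with hU | ⟨k, r', hk, -⟩
        · rw [List.all_eq_true] at h1
          have h3 := h1 d hd
          rw [Bool.or_eq_true] at h3
          rcases h3 with h3 | h3
          · have := Nat.le_of_ble_eq_true h3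
            omega
          · rw [List.all_eq_true] at h3
            have h4 := h3 f hf
            rw [Bool.or_eq_true] at h4
            rcases h4 with h4 | h4
            · have := Nat.le_of_ble_eq_true h4
              omega
            · have h5 := Nat.eq_of_beq_eq_true h4
              have h6 : (Nat.land U (band d f)).testBit x = true := by
                show (U &&& band d f).testBit x = true
                rw [Nat.testBit_and, hU, band_bit hdx hxf]
                rfl
              rw [h5] at h6
              simp at h6
        · omega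
      | succ j =>
        have hlen' : rs.length = ls.length := by simpa using hlen
        have hj' : ls[j]? = some l := by simpa using hj
        refine ih ls (c + 1) (Nat.lor U r) h2 hlen' j l hj' d f x hd hf (by omega) hdx hxf ?_
        rcases hU with hU | ⟨k, r', hk, hr', hx⟩
        · left
          show (U ||| r).testBit x = true
          rw [Nat.testBit_or, hU]
          rfl
        · cases k with
          | zero =>
            left
            have : r = r' := by simpa using hr'
            subst this
            show (U ||| r).testBit x = true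
            rw [Nat.testBit_or, hx, Bool.or_true]
          | succ k =>
            right
            exact ⟨k, r', by omega, by simpa using hr', hx⟩

theorem outer_sound : ∀ (rs : List ℕ) (ls : List (List ℕ)) (a : ℕ),
    outer rs ls a = true → rs.length = ls.length →
    ∀ (i j k : ℕ) (l l' : List ℕ) (r : ℕ), ls[i]? = some l → ls[j]? = some l' → rs[k]? = some r →
      i < k → k < j → ∀ d f x : ℕ, d ∈ l → f ∈ l' → a + j < d → d < x → x < f →
      r.testBit x = true → False := by
  intro rs
  induction rs with
  | nil =>
    intro ls a _ hlen i j k l l' r hi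
    have : ls = [] := by
      cases ls with
      | nil => rfl
      | cons a t => simp at hlen
    subst this
    simp at hi
  | cons r0 rs ih =>
    intro ls a h hlen i j k l l' r hi hj hk hik hkj d f x hd hf hc hdx hxf hx
    cases ls with
    | nil => simp at hlen
    | cons l0 ls =>
      rw [outer, Bool.and_eq_true] at h
      obtain ⟨h1, h2⟩ := h
      have hlen' : rs.length = ls.length := by simpa using hlen
      obtain ⟨j, rfl⟩ : ∃ j', j = j' + 1 := ⟨j - 1, by omega⟩
      obtain ⟨k, rfl⟩ : ∃ k', k = k' + 1 := ⟨k - 1, by omega⟩
      cases i with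
      | zero =>
        have hl : l0 = l := by simpa using hi
        subst hl
        exact inner_sound l0 (mx l0) (fun d hd => le_mx hd) rs ls (a + 1) 0 h1 hlen' j l' (by simpa using hj) d f x hd hf
          (by omega) hdx hxf (Or.inr ⟨k, r, by omega, by simpa using hk, hx⟩)
      | succ i =>
        exact ih ls (a + 1) h2 hlen' i j k l l' r (by simpa using hi) (by simpa using hj)
          (by simpa using hk) (by omega) (by omega) d f x hd hf (by omega) hdx hxf hx

/-- ascending lists above `u`, below `345` -/
def asc : ℕ → List ℕ → Bool
  | _, [] => true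
  | u, v :: l => Nat.blt u v && Nat.blt v 345 && asc v l

theorem asc_sound : ∀ (l : List ℕ) (u : ℕ), asc u l = true →
    l.Nodup ∧ ∀ v ∈ l, u < v ∧ v < 345 := by
  intro l
  induction l with
  | nil => intro u _; simp
  | cons v l ih =>
    intro u h
    rw [asc, Bool.and_eq_true, Bool.and_eq_true] at h
    obtain ⟨⟨h1, h2⟩, h3⟩ := h
    obtain ⟨i1, i2⟩ := ih v h3
    have h1' : u < v := by simpa [Nat.blt] using h1
    have h2' : v < 345 := by simpa [Nat.blt] using h2
    refine ⟨?_, ?_⟩
    · rw [List.nodup_cons]
      refine ⟨fun hv => ?_, i1⟩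
      have := (i2 v hv).1
      omega
    · intro w hw
      rcases List.mem_cons.mp hw with rfl | hw
      · exact ⟨h1', h2'⟩
      · have := i2 w hw
        exact ⟨by omega, this.2⟩

/-- the check of a row -/
def rowOK (u : ℕ) (l : List ℕ) (r : ℕ) : Bool :=
  asc u l && Nat.beq r (mask l) &&
    l.all fun v =>
      (!(Nat.beq (u % 3) 2) || Nat.beq v (3 * ((u / 3 + 1) % 115)) ||
        Nat.beq v (3 * ((u / 3 + 1) % 115) + 1) || Nat.beq v (3 * (u / 3)) ||
        Nat.beq v (3 * (u / 3) + 1)) &&
      (!(Nat.beq (v % 3) 2) || Nat.beq u (3 * ((v / 3 + 1) % 115)) ||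
        Nat.beq u (3 * ((v / 3 + 1) % 115) + 1) || Nat.beq u (3 * (v / 3)) ||
        Nat.beq u (3 * (v / 3) + 1))

def rowsOK : List ℕ → List (List ℕ) → ℕ → Bool
  | r :: rs, l :: ls, a => rowOK a l r && rowsOK rs ls (a + 1)
  | [], [], a => Nat.beq a 345
  | _, _, _ => false

theorem rowsOK_sound : ∀ (rs : List ℕ) (ls : List (List ℕ)) (a : ℕ), rowsOK rs ls a = true →
    rs.length = ls.length ∧ a + ls.length = 345 ∧
    ∀ (i : ℕ) (l : List ℕ), ls[i]? = some l → ∃ r, rs[i]? = some r ∧ rowOK (a + i) l r = true := by
  intro rs
  induction rs with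
  | nil =>
    intro ls a h
    cases ls with
    | nil =>
      rw [rowsOK] at h
      have := Nat.eq_of_beq_eq_true h
      subst this
      simp
    | cons l ls => simp [rowsOK] at h
  | cons r rs ih =>
    intro ls a h
    cases ls with
    | nil => simp [rowsOK] at h
    | cons l ls =>
      rw [rowsOK, Bool.and_eq_true] at h
      obtain ⟨h1, h2, h3⟩ := ih ls (a + 1) h.2
      refine ⟨by simp [h1], by simp; omega, ?_⟩
      intro i l' hi
      cases i with
      | zero =>
        have : l = l' := by simpa using hi
        subst this
        exact ⟨r, by simp, h.1⟩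
      | succ i =>
        obtain ⟨r', e1, e2⟩ := h3 i l' (by simpa using hi)
        exact ⟨r', by simpa using e1, by rw [show a + (i + 1) = a + 1 + i by ring]; exact e2⟩

set_option maxRecDepth 100000 in
theorem rows_ok : rowsOK rowsT nbT 0 = true := by decide +kernel

set_option maxRecDepth 100000 in
theorem outer_ok : outer rowsT nbT 0 = true := by decide +kernel

end Pool.Agent.Lib.MP_cd28a7_co.W
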